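import Pool.Agent.MP_d32a63_an.H58.Defs

/-! Row statements for the counterexample, and the assembly. -/

open Set Filter Topology Metric Polynomial
open Complex (I)
open Pool.Agent.MP_d32a63_an.H95 (Core Sec jet W0 Flat RealStmt)
open Pool.Agent.MP_d32a63_an.H82 (MemA TrivialA Admissible)

namespace Pool.Agent.MP_d32a63_an.H58

noncomputable section

/-! ### Basic facts -/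

structure BASIC : Prop where
  ev : ∀ n G p z, (tay n G p).eval z = H95.tay n G p z
  deg : ∀ (n : ℕ) G p, (tay n G p).degree < n
  ndeg : ∀ (n : ℕ) G p, (tay (n + 1) G p).natDegree ≤ n
  jt : ∀ n G p j, j < n → jet (tay n G p) j p = G j p
  bd : ∀ n G p (M : ℝ), 0 ≤ M → (∀ j < n, ‖G j p‖ ≤ M) → ∀ i z, ‖z - p‖ ≤ 3 →
    ‖jet (tay n G p) i z‖ ≤ 21 * M
  j0 : ∀ P z, jet P 0 z = P.eval z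
  jadd : ∀ P Q j z, jet (P + Q) j z = jet P j z + jet Q j z
  jsub : ∀ P Q j z, jet (P - Q) j z = jet P j z - jet Q j z
  jmul : ∀ (a : ℂ) P j z, jet (C a * P) j z = a * jet P j z
  jC : ∀ (a : ℂ) j z, jet (C a) (j + 1) z = 0
  jder : ∀ P j z, HasDerivAt (jet P j) (jet P (j + 1) z) z
  lip : ∀ (P : ℂ[X]) (i : ℕ) (A : Set ℂ) (M : ℝ), Convex ℝ A → (∀ z ∈ A, ‖jet P (i + 1) z‖ ≤ M) →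
    ∀ x ∈ A, ∀ y ∈ A, ‖jet P i y - jet P i x‖ ≤ M * ‖y - x‖
  snd : ∀ (P : ℂ[X]) (A : Set ℂ) (M : ℝ), Convex ℝ A → (∀ z ∈ A, ‖jet P 2 z‖ ≤ M) →
    ∀ x ∈ A, ∀ y ∈ A, ‖P.eval y - P.eval x - jet P 1 x * (y - x)‖ ≤ M * ‖y - x‖ ^ 2
  cau : ∀ (P : ℂ[X]) (x : ℂ) (R M : ℝ) (i : ℕ), 0 < R → (∀ z ∈ closedBall x R, ‖P.eval z‖ ≤ M) →
    ‖jet P i x‖ ≤ i.factorial * M / R ^ i
  full : ∀ (P : ℂ[X]) n x, P.natDegree ≤ n → trunc n x P = P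
  tadd : ∀ r x P Q, trunc r x (P + Q) = trunc r x P + trunc r x Q
  tsub : ∀ r x P Q, trunc r x (P - Q) = trunc r x P - trunc r x Q
  tmul : ∀ r x (a : ℂ) P, trunc r x (C a * P) = C a * trunc r x P
  tail : ∀ (r n : ℕ) x (P : ℂ[X]) (M : ℝ) z, P.natDegree ≤ n →
    (∀ u ∈ closedBall x 1, ‖P.eval u‖ ≤ M) → ‖z - x‖ ≤ 1 →
    ‖(P - trunc r x P).eval z‖ ≤ n * M * ‖z - x‖ ^ (r + 1)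
  coef : ∀ r x P, (trunc r x P).coeff r = jet P r x / (r.factorial : ℂ)
  up : ∀ r ω x j z, ‖ω‖ = 1 → ‖z - x‖ ≤ 1 → ‖jet (upol r ω x) j z‖ ≤ r.factorial
  upd : ∀ r ω x, (upol r ω x).natDegree ≤ r ∧ (upol r ω x).coeff r = ω ^ r
  mono : ∀ n m W W' G, Sec n W' G → W ⊆ W' → m ≤ n → Sec m W G
  inn : ∀ W z, W0 ⊆ W → z ∉ W → |z.re| + |z.im| ≤ 1 ∧ ‖z‖ ≤ 1
  cl1 : ∀ ℓ z, 0 < ℓ → ‖z - cen ℓ (cl ℓ z)‖ ≤ ℓ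
  cl2 : ∀ ℓ Q, 0 < ℓ → cl ℓ (cen ℓ Q) = Q
  finA : ∀ W ℓ, W0 ⊆ W → 0 < ℓ → {Q | act W ℓ Q}.Finite
  ac1 : ∀ p q : ℤ, p % 3 = q % 3 → acol p = acol q
  ac2 : ∀ p : ℤ, ‖acol p‖ ≤ 2
  ac3 : ∀ p q : ℤ, p % 3 ≠ q % 3 → ‖acol p - acol q‖ = 2
  ac4 : ∀ p : ℤ, acol (p + 2) - (acol p + acol (p + 1)) / 2 =
    (Real.sqrt 3 : ℂ) * I * ((acol (p + 1) - acol p) / 2)
  ac5 : ∀ p : ℤ, actr - (acol p + acol (p + 1)) / 2 = actr * ((acol (p + 1) - acol p) / 2)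

def MOD : Prop :=
  ∀ (n : ℕ) (s : Core n), ∃ (mo : ℝ → ℝ) (M : ℝ), 0 < M ∧ (∀ γ : ℝ, 0 < γ → 0 < mo γ) ∧
    (∀ j ≤ n, ∀ z : ℂ, ‖z‖ ≤ 3 → ‖s.F j z‖ ≤ M) ∧
    ∀ γ : ℝ, 0 < γ → ∀ y z : ℂ, ‖y‖ ≤ 2 → ‖z - y‖ ≤ mo γ → ∀ j ≤ n,
      ‖jet (tay (n + 1) s.F y) j z - s.F j z‖ ≤ γ ∧ ‖s.F j z - s.F j y‖ ≤ γ

/-! ### Realisation and geometry -/

def INIT (n : ℕ) : Prop := ∃ s : Core n, s.W = W0 ∧ ∀ z ∈ W0, s.F 0 z = z⁻¹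

def GPLAN (n : ℕ) (Cc : ℝ) : Prop :=
  ∀ (s : Core n) (κ δ : ℝ), 0 < κ → 0 < δ → ∀ P : GP, P.OK n s.W s.F κ →
    ∃ (s' : Core n) (Γ' : Set Seg), Ext κ s s' ∧ Gaps n s'.W s'.F Γ' ∧ P.Out n Cc κ δ s'.W Γ'

def GRID (n : ℕ) (Cc : ℝ) : Prop :=
  ∀ (s : Core n) (κ δ : ℝ), 0 < κ → κ ≤ 1 → 0 < δ → ∀ D O To ν, GHyp n s.W s.F κ D O To ν →
    ∃ (s' : Core n) (Γ' : Set Seg) (rt : ℤ × ℤ → ℤ × ℤ → ℂ), Ext κ s s' ∧ Gaps n s'.W s'.F Γ' ∧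
      GOut n Cc κ δ s.W D O ν s'.W Γ' rt

def OBJ : Prop :=
  ∀ (n : ℕ) (s : Core n) (Γ : Set Seg), Gaps n s.W s.F Γ → ∃ d1 : ℝ, 0 < d1 ∧ ∀ d ∈ Ioc 0 d1,
    ∀ ℓ : ℝ, 0 < ℓ → ℓ ≤ d ^ 2 → (∀ g ∈ Γ, ∃ k : ℤ, k % 3 = 0 ∧ g.p.re = (k : ℝ) * ℓ) →
    ∃ O : Set Obj, ObjGeo s.W ℓ O ∧ ObjGood s.W Γ d ℓ O

/-! ### Algebra of a cell -/

def ROOTS (r : ℕ) : Prop :=
  ∃ (ω : ℂ) (c γ : ℝ) (Mod : ℂ → Finset ℂ), ‖ω‖ = 1 ∧ 0 < c ∧ c ≤ 1 / 10 ∧ 0 < γ ∧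
    (∀ v ∈ Vals, (Mod v).card = r ∧ ∀ ξ ∈ Mod v, ‖ξ‖ ≤ 2) ∧
    (∀ v ∈ Vals, ∀ v' ∈ Vals, ∀ ξ ∈ Mod v, ∀ ξ' ∈ Mod v', (v ≠ v' ∨ ξ ≠ ξ') →
      10 * c ≤ |ξ.re - ξ'.re|) ∧
    ∀ v ∈ Vals, ∀ ξ ∈ Mod v, ∀ h : ℂ[X],
      (∀ z ∈ closedBall (0 : ℂ) 3, ‖h.eval z - ((ω * z) ^ r - v)‖ ≤ γ) →
      ∃ ξ', h.eval ξ' = 0 ∧ ‖ξ' - ξ‖ ≤ c

def DATA (r : ℕ) (c γ : ℝ) (ω : ℂ) : Prop :=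
  ∀ K0 τ : ℝ, 0 < K0 → 0 < τ → ∃ ℓ0 K1 : ℝ, 0 < ℓ0 ∧ 0 < K1 ∧
    ∀ (N : ℕ) (ε ℓ : ℝ) (x w : ℂ) (i : ℤ) (E0 E1 E2 : ℂ[X]),
      CD r N γ K0 τ ε ℓ ω x w i E0 E1 E2 → ℓ ≤ ℓ0 →
      ∃ (Z : Finset ℂ) (Lk : ℤ × ℤ → ℤ × ℤ → Finset ℂ), (∀ ζ ∈ Z, ‖ζ - x‖ ≤ ℓ / 3) ∧
        (∀ ζ ∈ Z, ∀ ζ' ∈ Z, ζ ≠ ζ' → c * ℓ ≤ |ζ.re - ζ'.re|) ∧
        LkOK r c ℓ x (tnode N E0 E1 E2 ε (upol r ω x)) Lk ∧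
        ∀ m m', Nb m m' → ∀ ζ ∈ Lk m m', ζ ∈ Z ∧
          ‖(tnode N E0 E1 E2 ε (upol r ω x) m' - tnode N E0 E1 E2 ε (upol r ω x) m).eval ζ‖ ≤
            K1 * ℓ ^ (2 * r + 1)

def LAG : Prop :=
  ∀ (r : ℕ) (c : ℝ), 1 ≤ r → 0 < c → ∃ Cc : ℝ, 0 < Cc ∧
    ∀ (ℓ : ℝ) (x : ℂ) (Z : Finset ℂ) (R : ℂ[X]) (δ : ℝ), 0 < ℓ → Pts r c ℓ x Z → R.degree < r →
      (∀ ζ ∈ Z, ‖R.eval ζ‖ ≤ δ) → ∀ z ∈ closedBall x (3 * ℓ), ‖R.eval z‖ ≤ Cc * δ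

def DIV : Prop :=
  ∀ (r : ℕ) (c : ℝ), 1 ≤ r → 0 < c → ∃ Cc : ℝ, 0 < Cc ∧
    ∀ (ℓ : ℝ) (x : ℂ) (Z : Finset ℂ) (q D : ℂ[X]) (ε δ M : ℝ), 0 < ℓ → ℓ ≤ 1 / 10 →
      Pts r c ℓ x Z → q.natDegree ≤ r → (∀ ζ ∈ Z, q.eval ζ = 0) → 0 < ε → ε ≤ ‖q.coeff r‖ →
      D.degree < (2 * r : ℕ) → (∀ z ∈ closedBall x 1, ‖D.eval z‖ ≤ M) →
      (∀ ζ ∈ Z, ‖D.eval ζ‖ ≤ δ) → δ ≤ M * ℓ ^ (r - 1) →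
      ∃ μ : ℂ[X], μ.degree < r ∧ (∀ z ∈ closedBall x (3 * ℓ), ‖(D - q * μ).eval z‖ ≤ Cc * δ) ∧
        ∀ z ∈ closedBall x 1, ‖μ.eval z‖ ≤ Cc * M / ε

def NODE (r : ℕ) : Prop :=
  ∀ c K0 τ ε0 C1 : ℝ, 0 < c → 0 < K0 → 0 < τ → 0 < ε0 → 0 < C1 → ∃ K ℓ0 : ℝ, 0 < K ∧ 0 < ℓ0 ∧
    ∀ (N : ℕ) (ε ℓ : ℝ) (ω x w : ℂ) (i : ℤ) (E0 E1 E2 : ℂ[X]) (Lk : ℤ × ℤ → ℤ × ℤ → Finset ℂ)
      (S : ℤ × ℤ → ℂ[X]), CD r N (1 / 3000) K0 τ ε ℓ ω x w i E0 E1 E2 → ε0 ≤ ε → ℓ ≤ ℓ0 →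
      LkOK r c ℓ x (tnode N E0 E1 E2 ε (upol r ω x)) Lk →
      (∀ m, Nd N m → (S m).degree < (2 * r : ℕ) ∧ ∀ z ∈ closedBall x 2, ‖(S m).eval z‖ ≤ 21) →
      (∀ m m', Nd N m → Nd N m' → Nb m m' → ∀ ζ ∈ Lk m m',
        ‖(S m' - S m).eval ζ‖ ≤ C1 * ℓ ^ (2 * r)) →
      ∃ g ν, NF N K (τ / N) ℓ x E0 E1 E2 S g ν

def HULL : Prop :=
  ∀ τ w A a b c, Tri τ w A a b c → ball (w + τ * actr) (τ / 20) ⊆ hull a b c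

def CFR (r : ℕ) : Prop :=
  ∀ K0 τ K : ℝ, 0 < K0 → 0 < τ → 0 < K → ∃ K' : ℝ, 1 ≤ K' ∧
    ∀ (N : ℕ) (ε ℓ : ℝ) (ω x w : ℂ) (i : ℤ) (E0 E1 E2 : ℂ[X]) (S : ℤ × ℤ → ℂ[X])
      (g ν : ℤ × ℤ → ℂ → ℂ), CD r N (1 / 3000) K0 τ ε ℓ ω x w i E0 E1 E2 →
      (∀ m, Nd N m → ∀ z ∈ closedBall x 2, ‖(S m).eval z‖ ≤ 21) →
      NF N K (τ / N) ℓ x E0 E1 E2 S g ν →
      ∃ g' μ cc, CF N K' τ ℓ x w E0 E1 E2 S g' μ cc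

/-! ### Two constants -/

def TC : Prop :=
  ∀ a b y1 y2 : ℝ, 0 < a → 0 < y1 → y1 ≤ y2 → y2 < b → ∃ α Cc : ℝ, 0 < α ∧ 0 < Cc ∧
    ∀ (K s : ℝ) (g μ : ℂ → ℂ), 0 ≤ K → 0 < s → Wh K s g μ (Icc (-a) a ×ℂ Icc 0 b) →
      (∀ t ∈ Icc (-a) a, ‖g (t : ℝ)‖ ≤ K * s) →
      ∀ w ∈ Icc (-(a / 2)) (a / 2) ×ℂ Icc y1 y2, ‖g w‖ ≤ Cc * K * s ^ α

def LINK1 (α Cc : ℝ) : Prop :=
  ∀ (τ K σ : ℝ) (w : ℂ) (A : ℤ) (a b c c' : ℂ) (g μ g' μ' : ℂ → ℂ), 0 ≤ K → 0 < σ →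
    Tri τ w A a b c → Tri τ w A a b c' → Wh K σ g μ (hull a b c) → Wh K σ g' μ' (hull a b c') →
    (∀ u ∈ segment ℝ a b, ‖g u - g' u‖ ≤ K * σ) →
    ∀ u ∈ ball (w + τ * actr) (τ / 40), ‖g u - g' u‖ ≤ Cc * K * (σ / τ) ^ α

def LINK2 : Prop :=
  ∀ τ K a0 η : ℝ, 0 < τ → 0 < K → 0 < a0 → 0 < η → ∃ s0 : ℝ, 0 < s0 ∧
    ∀ (σ : ℝ) (w : ℂ) (A : ℤ) (a b c c' : ℂ) (g μ g' μ' : ℂ → ℂ), 0 < σ → σ ≤ s0 →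
      Tri τ w A a b c → Tri τ w A a b c' → Wh K σ g μ (hull a b c) → Wh K σ g' μ' (hull a b c') →
      (∀ u ∈ segment ℝ a b, ‖u - (a + b) / 2‖ ≤ a0 * τ → ‖g u - g' u‖ ≤ K * σ) →
      ∀ u ∈ ball (w + τ * actr) (τ / 40), ‖g u - g' u‖ ≤ η

def LINK3 : Prop :=
  ∀ τ K : ℝ, 0 < τ → 0 < K → ∃ βf : ℝ → ℝ, (∀ η : ℝ, 0 < η → 0 < βf η) ∧
    ∀ η : ℝ, 0 < η → ∀ (σ : ℝ) (w : ℂ) (A : ℤ) (a b c : ℂ) (g μ : ℂ → ℂ) (c0 : ℂ), 0 < σ →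
      σ ≤ βf η → Tri τ w A a b c → Wh K σ g μ (hull a b c) →
      (∀ u ∈ ball (w + τ * actr) (τ / 200), ‖g u - c0‖ ≤ βf η) → ‖g ((a + b) / 2) - c0‖ ≤ η

/-! ### One finite level -/

def PREP (r : ℕ) : Prop :=
  ∀ Cg : ℝ, 0 < Cg → ∃ (c : ℝ) (ω : ℂ), 0 < c ∧ ∀ (s : Core (2 * r)) (Γ : Set Seg),
    Gaps (2 * r) s.W s.F Γ → ∀ κ : ℝ, 0 < κ → κ ≤ 1 →
    ∃ (τ ε0 K0 d1 : ℝ) (βc : ℝ → ℝ), 0 < τ ∧ 0 < ε0 ∧ 0 < K0 ∧ 0 < d1 ∧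
      (∀ η : ℝ, 0 < η → 0 < βc η) ∧ ∀ d ∈ Ioc 0 d1, ∃ a : ℝ, 0 < a ∧ ∀ ℓ0 : ℝ, 0 < ℓ0 →
        ∃ D O To ν ε, D.ℓ ≤ ℓ0 ∧ Prep r Cg c ω s.W s.F Γ κ τ ε0 K0 βc d a D O To ν ε

def FIN (n : ℕ) : Prop :=
  ∀ (s : Core n) (Γ : Set Seg), Gaps n s.W s.F Γ → ∀ κ : ℝ, 0 < κ →
    ∃ (τ K : ℝ) (βf : ℝ → ℝ), 0 < τ ∧ 1 ≤ K ∧ (∀ η : ℝ, 0 < η → 0 < βf η) ∧
      ∀ d0 : ℝ, 0 < d0 → ∃ d : ℝ, d ≤ d0 ∧ ∃ (s' : Core n) (Γ' : Set Seg), Ext κ s s' ∧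
        Gaps n s'.W s'.F Γ' ∧ Bridge n Γ s'.W Γ' ∧
        ∀ G, Sec n s'.W G → GapOK Γ' (G 0) → ∀ e, LipD s'.W e (G 0) →
          ∃ ℓ Φ μ c, Cells s.W Γ (s.F 0) τ K βf e d (G 0) ℓ Φ μ c

/-! ### The limit -/

def LAV : Prop :=
  ∀ W Γ F0 τ K βf e d g0 ℓ Φ μ c, Cells W Γ F0 τ K βf e d g0 ℓ Φ μ c → 1 ≤ K →
    ∀ (k j1 j2 : ℤ) (w : ℂ), j1 ≤ j2 →
      (∀ i j : ℤ, k - 1 ≤ i → i ≤ k + 1 → j1 ≤ j → j ≤ j2 →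
        act W ℓ (i, j) ∧ w ∈ tube F0 τ ℓ (i, j)) →
      ‖Φ (k, j1) w - Φ (k, j2) w‖ ≤ 6 * K * (((j2 - j1 : ℤ) : ℝ) * ℓ)

def LA1 : Prop :=
  ∀ n W F Γ τ K βf e d g0 ℓ Φ μ c, Gaps n W F Γ → Cells W Γ (F 0) τ K βf e d g0 ℓ Φ μ c → 1 ≤ K →
    ∀ (z0 w : ℂ) (R : ℝ), 10 * d ≤ R → Disjoint (ball z0 (8 * R)) (closure W) →
      (∀ Q, cen ℓ Q ∈ ball z0 (8 * R) → w ∈ tube (F 0) τ ℓ Q) →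
      ((∀ g ∈ Γ, Disjoint (ball z0 (8 * R)) (segment ℝ g.p g.v)) ∨
        ∃ g ∈ Γ, z0 ∈ segment ℝ g.p g.v ∧
          ∀ g' ∈ Γ, g' ≠ g → Disjoint (ball z0 (8 * R)) (segment ℝ g'.p g'.v)) →
      ∀ z ∈ ball z0 R, ∀ z' ∈ ball z0 R,
        ‖Φ (cl ℓ z) w - Φ (cl ℓ z') w‖ ≤ 100 * K * (‖z - z'‖ + d)

def LA2 : Prop :=
  ∀ W Γ F0 τ K βf e d g0 ℓ Φ μ c, Cells W Γ F0 τ K βf e d g0 ℓ Φ μ c → 1 ≤ K →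
    ∀ (z0 w : ℂ) (R : ℝ), 10 * d ≤ R → Disjoint (ball z0 (8 * R)) (closure W) →
      (∀ Q, cen ℓ Q ∈ ball z0 (8 * R) → w ∈ tube F0 τ ℓ Q) →
      (∀ g ∈ Γ, Disjoint (ball z0 (8 * R)) (segment ℝ g.p g.v)) →
      ∀ z ∈ ball z0 R, ∀ z' ∈ ball z0 R,
        ‖Φ (cl ℓ z') w - Φ (cl ℓ z) w - c (cl ℓ z) w * (z' - z)‖ ≤ 1000 * K * (‖z' - z‖ + d) ^ 2

/-- Almost equi-Lipschitz families converge uniformly on bounded sets. -/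
def UL : Prop :=
  ∀ (l : Filter ℕ) (g : ℕ → ℂ → ℂ) (u : ℂ → ℂ) (A : Set ℂ) (L : ℝ) (s : ℕ → ℝ), l.NeBot →
    Bornology.IsBounded A → Tendsto s l (𝓝 0) →
    (∀ x ∈ A, Tendsto (fun J => g J x) l (𝓝 (u x))) →
    (∀ᶠ J in l, ∀ x ∈ A, ∀ y ∈ A, ‖g J x - g J y‖ ≤ L * (‖x - y‖ + s J)) →
    TendstoUniformlyOn g u l A ∧ ∀ x ∈ A, ∀ y ∈ A, ‖u x - u y‖ ≤ L * ‖x - y‖

/-- Painlevé: a line is removable for continuous holomorphic functions. -/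
def PAIN : Prop :=
  ∀ (u : ℂ → ℂ) (z0 ω x : ℂ) (r : ℝ), ω ≠ 0 → ContinuousOn u (ball x r) →
    (∀ z ∈ ball x r, ((z - z0) * ω).im ≠ 0 → DifferentiableAt ℂ u z) →
    DifferentiableOn ℂ u (ball x r)

def CLOP : Prop :=
  ∀ (U B : Set ℂ) (ctr : ℂ → ℂ) (t : ℝ) (φ : ℂ → ℂ → ℂ), IsOpen U → IsPreconnected U → IsOpen B →
    (U ∩ B).Nonempty → Continuous ctr → 0 < t →
    (∀ z ∈ U, DifferentiableOn ℂ (φ z) (ball (ctr z) t)) →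
    (∀ z ∈ U, ∀ w ∈ ball (ctr z) t, DifferentiableAt ℂ (fun x => φ x w) z) →
    (∀ z ∈ U, z ∈ B → ∀ w ∈ ball (ctr z) t, ∀ w' ∈ ball (ctr z) t, φ z w = φ z w') →
    (∀ z ∈ U, ∀ w ∈ ball (ctr z) t, φ z w = φ z (ctr z)) ∧
      DifferentiableOn ℂ (fun z => φ z (ctr z)) U

def GLUE : Prop :=
  ∀ (W P : Set ℂ) (g ψ : ℂ → ℂ) (M : ℝ), IsOpen W → W0 ⊆ W → P.Finite →
    DifferentiableOn ℂ g (W ∩ ball 0 3) → DifferentiableOn ℂ ψ (closure W)ᶜ →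
    (∀ z ∈ closure W, ‖z‖ ≤ 3 → ‖g z‖ ≤ M) → (∀ z, z ∉ closure W → ‖ψ z‖ ≤ M) →
    (∀ z ∈ closure W, z ∉ W → z ∉ P → Flat W z ∧ ContinuousWithinAt g (closure W) z ∧
      Tendsto ψ (𝓝[(closure W)ᶜ] z) (𝓝 (g z))) →
    ∀ z0 ∈ W, ‖z0‖ < 2 → g z0 = cau g z0

structure LimA (W : Set ℂ) (F0 : ℂ → ℂ) (τ K : ℝ) (e : ℂ) (ℓ : ℕ → ℝ)
    (Φ : ℕ → ℤ × ℤ → ℂ → ℂ) : Prop where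
  hw : ∀ z, z ∉ closure W → DifferentiableOn ℂ (phi ℓ Φ z) (ball (F0 z + τ * actr) (τ / 50))
  hz : ∀ z, z ∉ closure W → ∀ w ∈ ball (F0 z + τ * actr) (τ / 50),
    DifferentiableAt ℂ (fun x => phi ℓ Φ x w) z
  fl : ∀ z, z ∉ closure W → z ∈ ball e (1 / 10) → ∀ w ∈ ball (F0 z + τ * actr) (τ / 50),
    ∀ w' ∈ ball (F0 z + τ * actr) (τ / 50), phi ℓ Φ z w = phi ℓ Φ z w'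
  bd : ∀ z, z ∉ closure W → ∀ w ∈ ball (F0 z + τ * actr) (τ / 50), ‖phi ℓ Φ z w‖ ≤ K
  un : ∀ z, z ∉ closure W → TendstoUniformlyOn (fun J w => Φ J (cl (ℓ J) z) w) (phi ℓ Φ z) UF
    (ball (F0 z + τ * actr) (τ / 60))

structure LimG (W : Set ℂ) (G : ℕ → ℕ → ℂ → ℂ) : Prop where
  dif : DifferentiableOn ℂ (gl G) (W ∩ ball 0 3)
  bd : ∀ z ∈ closure W, ‖z‖ ≤ 3 → ‖gl G z‖ ≤ 1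
  side : ∀ z ∈ closure W, z ∉ W → Flat W z → ContinuousWithinAt (gl G) (closure W) z ∧
    ∀ y : ℕ → ℂ, (∀ᶠ J in UF, y J ∈ closure W) → Tendsto y UF (𝓝 z) →
      Tendsto (fun J => G J 0 (y J)) UF (𝓝 (gl G z))
  pt : ∀ z0 ∈ W, ‖z0‖ < 2 →
    Tendsto (fun J => G J 0 z0 - cau (G J 0) z0) UF (𝓝 (gl G z0 - cau (gl G) z0))

def LIMA : Prop :=
  ∀ (n : ℕ) (s : Core n) Γ τ K βf e d ℓ G Φ μ c, Sq s Γ τ K βf e d ℓ G Φ μ c →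
    LimA s.W (s.F 0) τ K e ℓ Φ

def LIMG : Prop :=
  ∀ (W : Set ℂ) (G : ℕ → ℕ → ℂ → ℂ), IsOpen W → W0 ⊆ W → (∀ J, Sec 1 W (G J)) → LimG W G

def LIMB : Prop :=
  ∀ (n : ℕ) (s : Core n) Γ τ K βf e d ℓ G Φ μ c (ψ : ℂ → ℂ), Sq s Γ τ K βf e d ℓ G Φ μ c →
    LimA s.W (s.F 0) τ K e ℓ Φ → LimG s.W G →
    (∀ z, z ∉ closure s.W → ∀ w ∈ ball (s.F 0 z + τ * actr) (τ / 50), phi ℓ Φ z w = ψ z) →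
    ∀ z ∈ closure s.W, z ∉ s.W → Flat s.W z → (∀ g ∈ Γ, z ≠ g.p ∧ z ≠ g.v) →
      Tendsto ψ (𝓝[(closure s.W)ᶜ] z) (𝓝 (gl G z))

def LIM (n : ℕ) : Prop :=
  ∀ (s : Core n) (Γ : Set Seg), Gaps n s.W s.F Γ → ∀ (τ K : ℝ) (βf : ℝ → ℝ) (e : ℂ), 0 < τ →
    1 ≤ K → (∀ η : ℝ, 0 < η → 0 < βf η) → ((closure s.W)ᶜ ∩ ball e (1 / 10)).Nonempty →
    ∀ z0 ∈ s.W, ‖z0‖ < 2 → ∀ η : ℝ, 0 < η → ∃ d0 : ℝ, 0 < d0 ∧ ∀ d : ℝ, d ≤ d0 →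
      ∀ G ℓ Φ μ c, Sec 1 s.W G → Cells s.W Γ (s.F 0) τ K βf e d (G 0) ℓ Φ μ c →
        ‖G 0 z0 - cau (G 0) z0‖ ≤ η

/-! ### The step and the top level -/

def STEP (n : ℕ) : Prop :=
  ∀ (s : Core n) (Γ : Set Seg), Gaps n s.W s.F Γ → ∀ κ η : ℝ, 0 < κ → 0 < η →
    ∀ z0 ∈ s.W, ‖z0‖ < 2 → ∃ (s' : Core n) (Γ' : Set Seg), Ext κ s s' ∧ Gaps n s'.W s'.F Γ' ∧
      Bridge n Γ s'.W Γ' ∧ ∀ G, Sec n s'.W G → GapOK Γ' (G 0) →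
        (LipD s'.W (3 / 5) (G 0) ∨ LipD s'.W (-3 / 5) (G 0)) → ‖G 0 z0 - cau (G 0) z0‖ ≤ η

def Goal (n : ℕ) : Prop :=
  ∃ S S₁ S₂ : Set ℂ, IsClosed S ∧ Admissible S S₁ S₂ ∧ TrivialA n S₁ ∧ TrivialA n S₂ ∧
    ¬TrivialA n S

/-! ### The rows -/

def R_REAL : Prop := ∀ n, 1 ≤ n → ∃ Cc > 0, RealStmt n Cc
def R_INIT : Prop := ∀ n, INIT n
def R_GP : Prop := BASIC → ∀ n Cc, 1 ≤ n → 0 < Cc → RealStmt n Cc → GPLAN n Cc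
def R_GRID : Prop := BASIC → ∀ n Cc, 1 ≤ n → 0 < Cc → GPLAN n Cc → ∃ Cg > 0, GRID n Cg
def R_OBJ : Prop := BASIC → OBJ
def R_ROOTS : Prop := BASIC → ∀ r, 1 ≤ r → ROOTS r
def R_DATA : Prop := BASIC → ∀ r, 1 ≤ r → ROOTS r →
  ∃ (c γ : ℝ) (ω : ℂ), 0 < c ∧ c ≤ 1 / 10 ∧ 0 < γ ∧ ‖ω‖ = 1 ∧ DATA r c γ ω
def R_DIV : Prop := LAG ∧ DIV
def R_NODE : Prop := BASIC → LAG → DIV → ∀ r, 1 ≤ r → NODE r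
def R_HULL : Prop := BASIC → HULL
def R_CFR : Prop := BASIC → HULL → ∀ r, 2 ≤ r → CFR r
def R_LINK : Prop := BASIC → TC → (∃ α Cc : ℝ, 0 < α ∧ 0 < Cc ∧ LINK1 α Cc) ∧ LINK2 ∧ LINK3
def R_PREP : Prop := BASIC → MOD → OBJ → ∀ (r : ℕ) (c γ : ℝ) (ω : ℂ), 2 ≤ r → 0 < c → c ≤ 1 / 10 →
  0 < γ → ‖ω‖ = 1 → DATA r c γ ω → PREP r
def R_OUT : Prop := BASIC → HULL → LINK2 → LINK3 → ∀ (r : ℕ) (α CL Cg : ℝ), 2 ≤ r → 0 < α →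
  2 ≤ r * α → 0 < CL → 0 < Cg → LINK1 α CL → NODE r → CFR r → GRID (2 * r) Cg → PREP r →
  FIN (2 * r)
def R_LA : Prop := BASIC → LAV ∧ LA1 ∧ LA2
def R_UL : Prop := UL ∧ PAIN ∧ CLOP
def R_GLUE : Prop := PAIN → GLUE
def R_LIMA : Prop := BASIC → LA1 → LA2 → UL → PAIN → LIMA
def R_LIMG : Prop := BASIC → UL → LIMG
def R_LIMB : Prop := BASIC → LAV → LA1 → LIMB
def R_LIM : Prop := LIMA → LIMG → LIMB → CLOP → GLUE → ∀ n, LIM n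
def R_TOP : Prop := ∀ n, 1 ≤ n → INIT n → STEP n → Goal n

theorem step_of (hB : BASIC) {n : ℕ} (hn : 1 ≤ n) (hF : FIN n) (hL : LIM n) : STEP n := by
  intro s Γ hΓ κ η hκ hη z0 hz0 hz2
  obtain ⟨τ, K, βf, hτ, hK, hβ, h⟩ := hF s Γ hΓ κ hκ
  obtain ⟨d1, hd1, h1⟩ := hL s Γ hΓ τ K βf (3 / 5) hτ hK hβ s.meetP z0 hz0 hz2 η hη
  obtain ⟨d2, hd2, h2⟩ := hL s Γ hΓ τ K βf (-3 / 5) hτ hK hβ s.meetM z0 hz0 hz2 η hη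
  obtain ⟨d, hd, s', Γ', hE, hΓ', hBr, hG⟩ := h (min d1 d2) (lt_min hd1 hd2)
  refine ⟨s', Γ', hE, hΓ', hBr, fun G hS hO hLip => ?_⟩
  have hS1 : Sec 1 s.W G := hB.mono n 1 s.W s'.W G hS hE.sub hn
  rcases hLip with hl | hl
  · obtain ⟨ℓ, Φ, μ, c, hc⟩ := hG G hS hO _ hl
    exact h1 d (hd.trans (min_le_left _ _)) G ℓ Φ μ c hS1 hc
  · obtain ⟨ℓ, Φ, μ, c, hc⟩ := hG G hS hO _ hl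
    exact h2 d (hd.trans (min_le_right _ _)) G ℓ Φ μ c hS1 hc

theorem final (hB : BASIC) (hM : MOD) (hTC : TC) (h1 : R_REAL) (h2 : R_INIT) (h3 : R_GP)
    (h4 : R_GRID) (h5 : R_OBJ) (h6 : R_ROOTS) (h7 : R_DATA) (h8 : R_DIV) (h9 : R_NODE)
    (h10 : R_HULL) (h11 : R_CFR) (h12 : R_LINK) (h13 : R_PREP) (h14 : R_OUT) (h15 : R_LA)
    (h16 : R_UL) (h17 : R_GLUE) (h18 : R_LIMA) (h19 : R_LIMG) (h20 : R_LIMB) (h21 : R_LIM)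
    (h22 : R_TOP) : ∃ n, 1 ≤ n ∧ Goal n := by
  obtain ⟨⟨α, CL, hα, hCL, hL1⟩, hL2, hL3⟩ := h12 hB hTC
  obtain ⟨r0, hr0⟩ := exists_nat_ge (2 / α)
  set r := r0 + 2 with hr
  have hr2 : 2 ≤ r := by omega
  have hr1 : 1 ≤ r := by omega
  have hrα : 2 ≤ (r : ℝ) * α := by
    have h0 : 2 ≤ (r0 : ℝ) * α := by rwa [div_le_iff₀ hα] at hr0
    have : (r : ℝ) = r0 + 2 := by rw [hr]; push_cast; ring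
    rw [this]; nlinarith
  have hn : 1 ≤ 2 * r := by omega
  obtain ⟨C1, hC1, hR⟩ := h1 (2 * r) hn
  obtain ⟨Cg, hCg, hG⟩ := h4 hB (2 * r) C1 hn hC1 (h3 hB (2 * r) C1 hn hC1 hR)
  obtain ⟨c, γ, ω, hc, hc1, hγ, hω, hD⟩ := h7 hB r hr1 (h6 hB r hr1)
  have hH := h10 hB
  have hF : FIN (2 * r) := h14 hB hH hL2 hL3 r α CL Cg hr2 hα hrα hCL hCg hL1
    (h9 hB h8.1 h8.2 r hr1) (h11 hB hH r hr2) hG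
    (h13 hB hM (h5 hB) r c γ ω hr2 hc hc1 hγ hω hD)
  obtain ⟨hV, hA1, hA2⟩ := h15 hB
  obtain ⟨hU, hP, hCl⟩ := h16
  have hL : LIM (2 * r) :=
    h21 (h18 hB hA1 hA2 hU hP) (h19 hB hU) (h20 hB hV hA1) hCl (h17 hP) (2 * r)
  exact ⟨2 * r, hn, h22 (2 * r) hn (h2 _) (step_of hB hn hF hL)⟩

end

end Pool.Agent.MP_d32a63_an.H58
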