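import Pool.Agent.MP_d32a63_an.H58.Prof
import Pool.Agent.MP_d32a63_an.H23.Spec

/-! The planar realisation in the form used by the assembly. -/

open Set Metric Polynomial
open Pool.Agent.MP_d32a63_an.H95 (Core Sec jet W0 Flat)
open Pool.Agent.MP_d32a63_an.H23 (sq ctr wall GridData GridStmt)

namespace Pool.Agent.MP_d32a63_an.H58

theorem sq_norm {ℓ : ℝ} (hl : 0 < ℓ) {Q : ℤ × ℤ} {z : ℂ} (hz : z ∈ sq ℓ Q) :
    ‖z - cen ℓ Q‖ < ℓ := by
  obtain ⟨h1, h2, h3, h4⟩ := hz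
  have hn : ‖z - cen ℓ Q‖ ^ 2 < ℓ ^ 2 := by
    rw [Complex.sq_norm, Complex.normSq_apply, Complex.sub_re, Complex.sub_im, cen_re, cen_im]
    nlinarith [mul_nonneg (sub_nonneg.2 h1) (sub_nonneg.2 h2),
      mul_nonneg (sub_nonneg.2 h3) (sub_nonneg.2 h4), mul_pos hl hl]
  exact lt_of_pow_lt_pow_left₀ 2 hl.le hn

theorem obj_y {W ℓ O} (H : ObjGeo W ℓ O) {o : Obj} (ho : o ∈ O) :
    (⟨o.k * ℓ, o.y.im⟩ : ℂ) = o.y := Complex.ext (H.re o ho).symm rfl

theorem obj_fin {W ℓ O} (H : ObjGeo W ℓ O) {o : Obj} (ho : o ∈ O) :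
    (⟨o.k * ℓ, o.y.im + o.s * o.Λ⟩ : ℂ) = o.fin :=
  Complex.ext (by rw [fin_re]; exact (H.re o ho).symm) (fin_im o).symm

theorem mem_open {o : Obj} (hs : o.s = 1 ∨ o.s = -1) (hΛ : 0 < o.Λ) {z : ℂ} :
    z ∈ openSegment ℝ o.y o.fin ↔
      z.re = o.y.re ∧ 0 < o.s * (z.im - o.y.im) ∧ o.s * (z.im - o.y.im) < o.Λ := by
  have hss : o.s * o.s = 1 := by rcases hs with h | h <;> rw [h] <;> norm_num
  rw [openSegment_eq_image]
  constructor
  · rintro ⟨t, ⟨h0, h1⟩, rfl⟩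
    have e1 : ((1 - t) • o.y + t • o.fin).re = o.y.re := by
      simp only [Complex.add_re, Complex.smul_re, fin_re, smul_eq_mul]; ring
    have e2 : o.s * (((1 - t) • o.y + t • o.fin).im - o.y.im) = t * o.Λ := by
      simp only [Complex.add_im, Complex.smul_im, fin_im, smul_eq_mul]
      linear_combination t * o.Λ * hss
    refine ⟨e1, ?_, ?_⟩ <;> simp only [] <;> rw [e2] <;> nlinarith
  · rintro ⟨h1, h2, h3⟩
    refine ⟨o.s * (z.im - o.y.im) / o.Λ, ⟨by positivity, by rwa [div_lt_one hΛ]⟩, ?_⟩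
    apply Complex.ext
    · simp only [Complex.add_re, Complex.smul_re, fin_re, smul_eq_mul, h1]; ring
    · simp only [Complex.add_im, Complex.smul_im, fin_im, smul_eq_mul]
      have e : o.s * (z.im - o.y.im) / o.Λ * o.Λ = o.s * (z.im - o.y.im) := by field_simp
      linear_combination o.s * e + (z.im - o.y.im) * hss

/-- The sharing relation across the line `Q.1 + 1`. -/
def ShR (W : Set ℂ) (D : GD) (O : Set Obj) (Q : ℤ × ℤ) (X : ℕ) : Prop :=
  act W D.ℓ Q ∧ act W D.ℓ (Q.1 + 1, Q.2) ∧ Sh D.N ((D.N : ℤ) - X) ∧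
    (Free D.ℓ O (Q.1 + 1) Q.2 ∨ ∃ o ∈ O, o.k = Q.1 + 1 ∧ Q.2 ∈ o.St ∧ D.Mid ((D.N : ℤ) - X))

theorem wall_open {W ℓ O} (H : ObjGeo W ℓ O) (hl : 0 < ℓ) {o : Obj} (ho : o ∈ O) {j : ℤ}
    (hj : j ∈ o.St) : wall ℓ o.k j ⊆ openSegment ℝ o.y o.fin := by
  rintro z ⟨h1, h2, h3⟩
  rw [mem_open (H.sg o ho) (by linarith [H.len o ho])]
  exact ⟨by rw [h1, H.re o ho], (H.st o ho j hj).2.2 z.im ⟨h2, h3⟩⟩

theorem shR_mid {W D O} (H : ObjGeo W D.ℓ O) (hl : 0 < D.ℓ) {o : Obj} (ho : o ∈ O) {j : ℤ} {X : ℕ}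
    (hs : ShR W D O (o.k - 1, j) X)
    (hne : (wall D.ℓ o.k j ∩ openSegment ℝ o.y o.fin).Nonempty) :
    j ∈ o.St ∧ D.Mid ((D.N : ℤ) - X) := by
  obtain ⟨z, hz, hz'⟩ := hne
  have hz2 := (mem_open (H.sg o ho) (by linarith [H.len o ho])).1 hz'
  rcases hs.2.2.2 with h | ⟨o', ho', hk, hj, hm⟩
  · exact absurd ⟨hz2.2.1.le, hz2.2.2.le⟩ (h o ho (by simp) z.im ⟨hz.2.1, hz.2.2⟩)
  · have hk' : o'.k = o.k := by simpa using hk
    by_cases hoo : o = o'
    · subst hoo; exact ⟨hj, hm⟩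
    · have := wall_open H hl ho' hj (hk' ▸ hz)
      exact absurd (openSegment_subset_segment _ _ _ this)
        (Set.disjoint_left.1 (H.cross o ho o' ho' hoo) hz')

open Classical in
/-- The grid data that belong to the hypotheses `GHyp`. -/
noncomputable def mkData {n : ℕ} (s : Core n) {κ : ℝ} {D : GD} {O : Set Obj} {To : Obj → ℂ[X]}
    {ν : Obj → ℝ} (H : GHyp n s.W s.F κ D O To ν) (hA : {Q | act s.W D.ℓ Q}.Finite)
    (h : ℤ → ℝ → ℝ) (h1 : ∀ j x x', |h j x - h j x'| ≤ 1 / D.c * |x - x'|)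
    (h2 : ∀ (j : ℤ) x, |h j x - (j + 1 / 2) * D.ℓ| ≤ D.ℓ / 3) (δ' : ℝ) (hδ : 0 < δ') :
    GridData s κ D.ℓ (1 / D.c) D.ν' D.N (D.N / 2 - D.xw) (D.N / 2 + D.xw) Obj where
  Act := hA.toFinset
  T Q v := D.T Q (v.2, v.1)
  h := h
  shR := ShR s.W D O
  shV Q k := (Q.1 + Q.2) % 2 = 0 ∧ act s.W D.ℓ Q ∧ act s.W D.ℓ (Q.1, Q.2 + 1) ∧ Sh D.N k
  Th := H.geo.fin.toFinset
  I o := o.k
  y0 o := o.y.im
  y1 o := o.y.im + o.s * o.Λ
  P := To
  gap o := o.thr
  St o := o.St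
  c o := (if o.St.Nonempty then ν o + 2 * D.ν' * D.xw else 0) + δ'
  act Q hQ := by
    rw [Set.Finite.mem_toFinset] at hQ
    refine Disjoint.mono_left (fun z hz => ?_) hQ
    rw [mem_ball, dist_eq_norm]
    linarith [sq_norm H.l0 hz, H.l0]
  lab Q hQ v hv j hj z hz := by
    rw [Set.Finite.mem_toFinset] at hQ
    refine H.close Q hQ _ ⟨by simp, by simp, by simp only; omega⟩ j hj z ?_
    rw [mem_ball, dist_eq_norm]
    linarith [sq_norm H.l0 hz, H.l0]
  hlip := h1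
  hmid := h2
  hR i j X hs := by
    obtain ⟨a1, a2, a3, -⟩ := hs
    have a4 := a3
    obtain ⟨b1, b2, b3⟩ := a4
    refine ⟨by simpa using a1, by simpa using a2, by omega, by omega, ?_⟩
    have := H.shh (i + 1) j _ a3
    have e1 : ((D.N - X : ℕ) : ℤ) = (D.N : ℤ) - X := by omega
    simp only [e1]
    simpa using this
  hV i j k hs := by
    obtain ⟨a1, a2, a3, a4⟩ := hs
    have a5 := a4
    obtain ⟨b1, b2, b3⟩ := a5
    refine ⟨Int.even_iff.2 a1, by simpa using a2, by simpa using a3, by omega, by omega, ?_⟩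
    simpa using H.shv i j k a1 a4
  len t ht := by
    rw [Set.Finite.mem_toFinset] at ht
    have := H.geo.len t ht
    have h0 : 0 < t.Λ := by linarith [H.l0]
    rcases H.geo.sg t ht with e | e <;> rw [e] <;> simp [abs_of_pos h0] <;> linarith
  start t ht := by
    rw [Set.Finite.mem_toFinset] at ht
    rw [obj_y H.geo ht]
    exact ⟨H.geo.mem t ht, fun j hj => (H.oj t ht j hj).1⟩
  free t ht := by
    rw [Set.Finite.mem_toFinset] at ht
    rw [obj_y H.geo ht, obj_fin H.geo ht]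
    exact H.geo.free t ht
  disj t ht t' ht' hne := by
    rw [Set.Finite.mem_toFinset] at ht ht'
    rw [obj_y H.geo ht, obj_fin H.geo ht, obj_y H.geo ht', obj_fin H.geo ht']
    exact H.geo.cross t ht t' ht' hne
  near t ht j hj z hz := by
    rw [Set.Finite.mem_toFinset] at ht
    rw [obj_y H.geo ht, obj_fin H.geo ht] at hz
    exact H.oc t ht j hj z hz
  stop t ht hg := by
    rw [Set.Finite.mem_toFinset] at ht
    rw [obj_fin H.geo ht]
    exact ⟨H.geo.thr t ht hg, fun j hj => (H.oj t ht j hj).2 hg⟩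
  cross t ht j X hs hne := by
    rw [Set.Finite.mem_toFinset] at ht
    rw [obj_y H.geo ht, obj_fin H.geo ht] at hne
    obtain ⟨a1, a2, a3⟩ := shR_mid H.geo H.l0 ht hs hne
    have := H.xw
    obtain ⟨k, hk⟩ := H.N6
    rw [abs_le] at a3
    refine ⟨a1, ?_, ?_⟩ <;> omega
  station t ht j hj := by
    rw [Set.Finite.mem_toFinset] at ht
    refine ⟨by simpa using (H.geo.st t ht j hj).1, fun z hz => ?_⟩
    have hzo := wall_open H.geo H.l0 ht hj hz
    have hzb : z ∈ ball (cen D.ℓ (t.k, j)) D.ℓ := by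
      rw [mem_ball, dist_eq_norm]
      refine sq_norm H.l0 ⟨hz.1.ge, ?_, hz.2.1, hz.2.2⟩
      rw [hz.1]; simp only; nlinarith [H.l0]
    have hT : ∀ X : ℕ, ShR s.W D O (t.k - 1, j) X → D.Mid ((D.N : ℤ) - X) ∧
        D.T (t.k - 1, j) (((D.N - X : ℕ) : ℤ), (X : ℤ)) = D.T (t.k, j) (0, (D.N : ℤ) - X) := by
      intro X hs
      refine ⟨(shR_mid H.geo H.l0 ht hs ⟨z, hz, hzo⟩).2, ?_⟩
      have a3 := hs.2.2.1
      have := H.shh t.k j _ a3
      obtain ⟨b1, b2, b3⟩ := a3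
      have e1 : ((D.N - X : ℕ) : ℤ) = (D.N : ℤ) - X := by omega
      rw [e1]
      simpa using this
    have hseg := openSegment_subset_segment _ _ _ hzo
    constructor
    · intro X hs
      obtain ⟨m1, e1⟩ := hT X hs
      have := (H.os t ht j hj _ m1 z hzb hseg).1
      simp only [e1]
      have hne : t.St.Nonempty := ⟨j, hj⟩
      rw [if_pos hne, eval_sub, norm_sub_rev, ← eval_sub]
      have : 0 ≤ 2 * D.ν' * D.xw := by have := H.n0; positivity
      linarith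
    · intro X X' hs hs' hX
      obtain ⟨m1, e1⟩ := hT X hs
      obtain ⟨m2, e2⟩ := hT X' hs'
      have := (H.os t ht j hj _ m1 z hzb hseg).2 _ m2
      simp only [e1, e2]
      refine this.trans (le_of_eq ?_)
      have hX' : (X : ℝ) ≤ X' := by exact_mod_cast hX
      push_cast
      rw [abs_of_nonpos (by linarith)]; ring
  cpos t ht := by
    rw [Set.Finite.mem_toFinset] at ht
    have := H.on t ht
    have := H.n0
    split_ifs <;> positivity
  win t ht hne := by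
    rw [Set.Finite.mem_toFinset] at ht
    have h3 := H.on t ht
    have h4 := H.xw
    have e : D.xw ≤ D.N / 2 := by omega
    rw [if_pos hne]
    push_cast [Nat.cast_sub e]
    linarith

theorem grid_of (hB : BASIC) {n : ℕ} {Cc : ℝ} (hC : 0 < Cc) (hG : GridStmt n Cc) :
    GRID n (4 * Cc + 24 * 2 ^ n) := by
  classical
  intro s κ δ hκ hκ1 hδ D O To ν H
  have hA := hB.finA s.W D.ℓ s.base H.l0
  obtain ⟨h, h1, h2, h3⟩ := exists_rows H
  obtain ⟨B, hB'⟩ := (H.geo.fin.image fun o => (o.St.card : ℝ)).bddAbove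
  have hB0 : ∀ o ∈ O, (o.St.card : ℝ) ≤ |B| := fun o ho =>
    (hB' ⟨o, ho, rfl⟩).trans (le_abs_self B)
  set δ' := δ * κ / (Cc * (3 * |B| + 1)) with hδ'
  have hδ0 : 0 < δ' := by positivity
  have hx := H.xw
  have hl := H.l0
  have hc := H.c0
  obtain ⟨s', γ, Γ, a, b, R, A, r, o1, o2, o3, hA0, o4, o5, o6, o7, o8, o9, o10, o11⟩ :=
    hG s κ D.ℓ (1 / D.c) D.ν' D.N (D.N / 2 - D.xw) (D.N / 2 + D.xw) Obj
      (mkData s H hA h h1 h2 δ' hδ0) hκ hl (by linarith [H.l1]) (by positivity) H.n0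
      (by omega) (by omega) (by omega)
  have hcost : ∀ o ∈ O, |o.y.im + o.s * o.Λ - o.y.im| + Cc * ((3 * o.St.card + 1) *
      ((if o.St.Nonempty then ν o + 2 * D.ν' * D.xw else 0) + δ')) / κ ≤
      o.Λ + D.cost (4 * Cc + 24 * 2 ^ n) κ ν o + δ := by
    intro o ho
    have h0 : 0 < o.Λ := by linarith [H.geo.len o ho]
    have e1 : |o.y.im + o.s * o.Λ - o.y.im| = o.Λ := by
      rcases H.geo.sg o ho with e | e <;> rw [e] <;> simp [abs_of_pos h0]
    have e2 : Cc * ((3 * o.St.card + 1) * δ') / κ ≤ δ := by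
      have := hB0 o ho
      calc Cc * ((3 * o.St.card + 1) * δ') / κ ≤ Cc * ((3 * |B| + 1) * δ') / κ := by gcongr
        _ = δ := by rw [hδ']; field_simp
    have e3 : Cc * ((3 * o.St.card + 1) * (if o.St.Nonempty then ν o + 2 * D.ν' * D.xw else 0)) / κ
        ≤ D.cost (4 * Cc + 24 * 2 ^ n) κ ν o := by
      have hν := H.on o ho
      have hν' := H.n0
      unfold GD.cost
      split_ifs with hne
      · have : (1 : ℝ) ≤ o.St.card := by exact_mod_cast hne.card_pos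
        refine div_le_div_of_nonneg_right ?_ hκ.le
        have p1 : 0 ≤ D.ν' * D.xw := by positivity
        calc Cc * ((3 * o.St.card + 1) * (ν o + 2 * D.ν' * D.xw))
            ≤ Cc * ((4 * o.St.card) * (2 * ν o + 2 * D.ν' * D.xw)) := by
              gcongr <;> linarith
          _ = 4 * Cc * o.St.card * (2 * ν o + 2 * D.ν' * D.xw) := by ring
          _ ≤ _ := by gcongr; linarith [show (0 : ℝ) < 24 * 2 ^ n by positivity]
      · rw [mul_zero, mul_zero, zero_div]; positivity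
    rw [e1, mul_add (3 * (o.St.card : ℝ) + 1), mul_add Cc, add_div]
    linarith
  have hz : (0 : ℝ) ≤ (4 * Cc + 24 * 2 ^ n) * D.ℓ ^ n := by positivity
  have hmem : ∀ {Q}, act s.W D.ℓ Q → Q ∈ (mkData s H hA h h1 h2 δ' hδ0).Act := fun hQ => by
    simpa [mkData] using hQ
  have hth : ∀ {o}, o ∈ O → o ∈ (mkData s H hA h h1 h2 δ' hδ0).Th := fun ho => by
    simpa [mkData] using ho
  have hshr : ∀ k j x : ℤ, act s.W D.ℓ (k - 1, j) → act s.W D.ℓ (k, j) → Sh D.N x →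
      (Free D.ℓ O k j ∨ ∃ o ∈ O, o.k = k ∧ j ∈ o.St ∧ D.Mid x) →
      ShR s.W D O (k - 1, j) (D.N - x.toNat) ∧
        r (k - 1, j) (((D.N : ℤ) - x).toNat, x.toNat) = r (k, j) (x.toNat, 0) ∧
        r (k - 1, j) (D.N - x.toNat, D.N - (D.N - x.toNat)) = r (k, j) (x.toNat, 0) := by
    intro k j x a1 a2 a3 a4
    have a5 := a3
    obtain ⟨b1, b2, b3⟩ := a5
    have e1 : (D.N : ℤ) - ((D.N - x.toNat : ℕ) : ℤ) = x := by omega
    have hs : ShR s.W D O (k - 1, j) (D.N - x.toNat) := by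
      refine ⟨a1, by simpa using a2, by rw [e1]; exact a3, ?_⟩
      rw [e1]; simpa using a4
    have := o7 (k - 1) j _ hs
    have e2 : D.N - (D.N - x.toNat) = x.toNat := by omega
    have e3 : ((D.N : ℤ) - x).toNat = D.N - x.toNat := by omega
    rw [e2, sub_add_cancel] at this
    exact ⟨hs, by rw [e3]; exact this, by rw [e2]; exact this⟩
  refine ⟨s', (fun g => (⟨a g, b g, R g⟩ : Seg)) '' (Γ : Set γ),
    fun Q m => r Q (m.2.toNat, m.1.toNat), ⟨o1, o2, o3⟩, ?_, ?_⟩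
  · refine ⟨(Γ.finite_toSet).image _, ?_, ?_, ?_, ?_, ?_, ?_, ?_⟩
    · rintro _ ⟨g, hg, rfl⟩; exact (o4 g hg).1
    · rintro _ ⟨g, hg, rfl⟩
      obtain ⟨k, e1, e2⟩ := (o4 g hg).2.2.2.2.2
      simp only [e1, e2]
    · rintro _ ⟨g, hg, rfl⟩
      obtain ⟨k, e1, -⟩ := (o4 g hg).2.2.2.2.2
      obtain ⟨q, hq⟩ := H.rat
      exact ⟨k * (q / A), by simp only [e1, hq]; push_cast; ring⟩
    · rintro _ ⟨g, hg, rfl⟩; exact ⟨(o4 g hg).2.1, (o4 g hg).2.2.1⟩
    · rintro _ ⟨g, hg, rfl⟩; exact (o4 g hg).2.2.2.1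
    · rintro _ ⟨g, hg, rfl⟩ _ ⟨g', hg', rfl⟩ hne
      exact o5 g hg g' hg' fun e => hne (by rw [e])
    · rintro _ ⟨g, hg, rfl⟩; exact (o4 g hg).2.2.2.2.1
  · refine ⟨fun o ho ht => ?_, fun Q hQ m hm => ?_, fun G hS hO Q hQ m m' hm hm' hN ζ hζ => ?_,
      fun G hS i j x a1 a2 a3 a4 z hz' => ?_, fun G hS k j x a1 a2 a3 a4 z hz' => ?_,
      fun G hS o ho j hj x hx' => ?_⟩
    · obtain ⟨g, hg, e1, e2, e3⟩ := o9 o (hth ho) ht
      refine ⟨_, ⟨g, hg, rfl⟩, e1.trans (obj_fin H.geo ho), e2, fun G hS => ?_⟩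
      have := e3 G hS
      simp only [mkData, obj_y H.geo ho] at this
      exact this.trans (hcost o ho)
    · obtain ⟨b1, b2, b3⟩ := hm
      obtain ⟨e1, e2⟩ := o6 Q (hmem hQ) (m.2.toNat, m.1.toNat) (by simp only; omega)
      exact ⟨e1, (sq_norm hl e2).le⟩
    · obtain ⟨b1, b2, b3⟩ := hm
      obtain ⟨c1, c2, c3⟩ := hm'
      obtain ⟨hζ1, hζ2⟩ := H.lk Q hQ m m' hN ζ hζ
      have hre : |ζ.re - (ctr D.ℓ Q).re| ≤ D.ℓ / 3 := by
        have := (Complex.abs_re_le_norm _).trans (H.box Q hQ ζ hζ1)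
        rwa [Complex.sub_re, cen_re] at this
      have hO' : ∀ g ∈ Γ, ‖G 0 (a g) - G 0 (b g)‖ ≤ 4 * ‖a g - b g‖ := fun g hg =>
        hO _ ⟨g, hg, rfl⟩
      have em : (((m.1.toNat : ℕ) : ℤ), ((m.2.toNat : ℕ) : ℤ)) = m := by
        ext <;> simp only <;> omega
      have em' : (((m'.1.toNat : ℕ) : ℤ), ((m'.2.toNat : ℕ) : ℤ)) = m' := by
        ext <;> simp only <;> omega
      have hb : ‖H95.tay n G (r Q (m.2.toNat, m.1.toNat)) ζ -
          H95.tay n G (r Q (m'.2.toNat, m'.1.toNat)) ζ‖ ≤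
          Cc * ‖(D.T Q m' - D.T Q m).eval ζ‖ / κ + 2 ^ n * (40 + 20 * (1 / D.c)) * D.ℓ ^ n := by
        rcases hN with e | e | e
        · have := o11 G hS hO' Q (hmem hQ) (m.2.toNat, m.1.toNat) (m'.2.toNat, m'.1.toNat)
            ⟨by simp only; omega, by simp only; omega, Or.inl (by
              rw [e]; ext <;> simp only <;> omega)⟩ ζ hre (h3 Q hQ ζ hζ1)
          simpa only [mkData, em, em'] using this
        · have := o11 G hS hO' Q (hmem hQ) (m.2.toNat, m.1.toNat) (m'.2.toNat, m'.1.toNat)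
            ⟨by simp only; omega, by simp only; omega, Or.inr (Or.inl (by
              rw [e]; ext <;> simp only <;> omega))⟩ ζ hre (h3 Q hQ ζ hζ1)
          simpa only [mkData, em, em'] using this
        · have e1 : m'.1 = m.1 - 1 := by rw [e]
          have e2 : m'.2 = m.2 + 1 := by rw [e]
          have := o11 G hS hO' Q (hmem hQ) (m'.2.toNat, m'.1.toNat) (m.2.toNat, m.1.toNat)
            ⟨by simp only; omega, by simp only; omega, Or.inr (Or.inr (by
              simp only; omega))⟩ ζ hre (h3 Q hQ ζ hζ1)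
          simp only [mkData, em, em'] at this
          rw [norm_sub_rev, eval_sub, norm_sub_rev (eval ζ (D.T Q m')), ← eval_sub]
          exact this
      rw [eval_sub, hB.ev, hB.ev, norm_sub_rev]
      refine hb.trans ?_
      have p1 : Cc * ‖(D.T Q m' - D.T Q m).eval ζ‖ / κ ≤ (4 * Cc + 24 * 2 ^ n) * D.β / κ := by
        have := H.b0
        gcongr
        linarith [show (0 : ℝ) < 24 * 2 ^ n by positivity]
      have p2 : 2 ^ n * (40 + 20 * (1 / D.c)) ≤ (4 * Cc + 24 * 2 ^ n) / D.c := by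
        rw [le_div_iff₀ hc]
        have : (40 + 20 * (1 / D.c)) * D.c ≤ 24 := by
          have : (40 + 20 * (1 / D.c)) * D.c = 40 * D.c + 20 := by field_simp
          linarith [H.c1]
        have p3 : (0 : ℝ) < 2 ^ n := by positivity
        nlinarith
      have p4 : 2 ^ n * (40 + 20 * (1 / D.c)) * D.ℓ ^ n ≤
          (4 * Cc + 24 * 2 ^ n) / D.c * D.ℓ ^ n := by gcongr
      linarith
    · have := o8 i j x.toNat ⟨a1, a2, a3, by
        have : ((x.toNat : ℕ) : ℤ) = x := by have := a4.1; omega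
        rw [this]; exact a4⟩
      simp only [Int.toNat_zero]
      rw [this, sub_self, eval_zero, norm_zero]
      exact hz
    · obtain ⟨-, e, -⟩ := hshr k j x a1 a2 a3 a4
      simp only [Int.toNat_zero]
      rw [e, sub_self, eval_zero, norm_zero]
      exact hz
    · have a3 : Sh D.N x := by
        obtain ⟨m1, m2⟩ := hx'
        rw [abs_le] at m2
        refine ⟨by omega, by omega, m1⟩
      obtain ⟨a1, a2, -⟩ := H.geo.st o ho j hj
      obtain ⟨hs, -, e⟩ := hshr o.k j x a1 a2 a3 (Or.inr ⟨o, ho, rfl, hj, hx'⟩)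
      have := o10 o (hth ho) j _ hs (by
        simp only [mkData, obj_y H.geo ho, obj_fin H.geo ho]
        exact wall_open H.geo hl ho hj) G hS
      simp only [mkData, obj_y H.geo ho, e] at this
      simp only [Int.toNat_zero]
      exact this.trans (hcost o ho)

end Pool.Agent.MP_d32a63_an.H58
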