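import Pool.Agent.MP_d32a63_an.H82.Defs
import Pool.Agent.MP_d32a63_an.H95.Defs

/-! Definitions for the counterexample to locality of triviality of `A^n(S)`.
See the plan `MP_d32a63_counter_plan.md`. -/

open Set Filter Topology Metric Polynomial
open Complex (I)
open Pool.Agent.MP_d32a63_an.H95 (Core Sec jet W0 Flat)

namespace Pool.Agent.MP_d32a63_an.H58

noncomputable section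

/-! ### Jets, lenses, stages -/

/-- The Taylor polynomial with `n` terms of the jet field `G` at `p`. -/
def tay (n : ℕ) (G : ℕ → ℂ → ℂ) (p : ℂ) : ℂ[X] :=
  ∑ j ∈ Finset.range n, C (G j p / (j.factorial : ℂ)) * (X - C p) ^ j

/-- A segment with a polynomial. -/
structure Seg where
  p : ℂ
  v : ℂ
  T : ℂ[X]

structure Gaps (n : ℕ) (W : Set ℂ) (F : ℕ → ℂ → ℂ) (Γ : Set Seg) : Prop where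
  fin : Γ.Finite
  ne : ∀ g ∈ Γ, g.p ≠ g.v
  vert : ∀ g ∈ Γ, g.p.re = g.v.re
  rat : ∀ g ∈ Γ, ∃ q : ℚ, g.p.re = q
  ends : ∀ g ∈ Γ, g.p ∈ closure W ∧ g.v ∈ closure W
  free : ∀ g ∈ Γ, Disjoint (openSegment ℝ g.p g.v) (closure W)
  cross : ∀ g ∈ Γ, ∀ g' ∈ Γ, g ≠ g' → Disjoint (openSegment ℝ g.p g.v) (segment ℝ g'.p g'.v)
  jets : ∀ g ∈ Γ, ∀ j ≤ n, ∀ z ∈ segment ℝ g.p g.v, F j z = jet g.T j z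

def GapOK (Γ : Set Seg) (g0 : ℂ → ℂ) : Prop :=
  ∀ g ∈ Γ, ‖g0 g.p - g0 g.v‖ ≤ 4 * ‖g.p - g.v‖

def LipD (W : Set ℂ) (e : ℂ) (g0 : ℂ → ℂ) : Prop :=
  ∀ x ∈ closure W ∩ ball e (1 / 10), ∀ y ∈ closure W ∩ ball e (1 / 10), ‖g0 x - g0 y‖ ≤ ‖x - y‖

/-- The Cauchy integral over the circle of radius `5/2`. -/
def cau (g0 : ℂ → ℂ) (z : ℂ) : ℂ :=
  (2 * (Real.pi : ℂ) * I)⁻¹ * ∮ ζ in C(0, 5 / 2), (ζ - z)⁻¹ * g0 ζ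

/-- `s'` extends `s` and moves the background by at most `κ`. -/
structure Ext {n : ℕ} (κ : ℝ) (s s' : Core n) : Prop where
  sub : s.W ⊆ s'.W
  eq : ∀ j ≤ n, ∀ z ∈ closure s.W, s'.F j z = s.F j z
  near : ∀ j ≤ n, ∀ z, ‖s'.F j z - s.F j z‖ ≤ κ

/-- Every old gap is bridged up to one new gap of a quarter of its length. -/
def Bridge (n : ℕ) (Γ : Set Seg) (W' : Set ℂ) (Γ' : Set Seg) : Prop :=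
  ∀ g ∈ Γ, ∃ g' ∈ Γ', g'.v = g.v ∧ ‖g'.p - g'.v‖ ≤ ‖g.p - g.v‖ / 4 ∧
    ∀ G, Sec n W' G → ‖G 0 g.p - G 0 g'.p‖ ≤ 3 * ‖g.p - g.v‖

/-- Strong edge: the Taylor polynomials at the two ends are close. -/
def SE (n : ℕ) (G : ℕ → ℂ → ℂ) (p v : ℂ) : Prop :=
  ∀ (z : ℂ) (d : ℝ), ‖z - p‖ ≤ d → ‖z - v‖ ≤ d →
    ‖(tay n G p).eval z - (tay n G v).eval z‖ ≤ ‖p - v‖ * d ^ (n - 1)

/-! ### Grid plans -/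

def gpos (ρ : ℝ) (Y : ℤ → ℤ → ℝ) (x : ℤ × ℤ) : ℂ :=
  (((x.1 : ℝ) * ρ : ℝ) : ℂ) + ((Y x.1 x.2 : ℝ) : ℂ) * I

def Adj (x y : ℤ × ℤ) : Prop :=
  (y.2 = x.2 ∧ (y.1 = x.1 + 1 ∨ x.1 = y.1 + 1)) ∨ (y.1 = x.1 ∧ (y.2 = x.2 + 1 ∨ x.2 = y.2 + 1))

/-- The jets of `T` are within `κ / 2` of `F` on `A`. -/
def Close (n : ℕ) (F : ℕ → ℂ → ℂ) (κ : ℝ) (T : ℂ[X]) (A : Set ℂ) : Prop :=
  ∀ j ≤ n, ∀ z ∈ A, ‖jet T j z - F j z‖ ≤ κ / 2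

/-- Data of a plan on a grid: vertices, polynomials, parents, gaps, anchors. -/
structure GP where
  ρ : ℝ
  Y : ℤ → ℤ → ℝ
  V : Set (ℤ × ℤ)
  T : ℤ × ℤ → ℂ[X]
  rk : ℤ × ℤ → ℕ
  par : ℤ × ℤ → Option (ℤ × ℤ)
  gap : ℤ × ℤ → Option (ℤ × ℤ)
  aE : ℤ × ℤ → Option ℂ
  aG : ℤ × ℤ → Option ℂ

def GP.pos (P : GP) (x : ℤ × ℤ) : ℂ := gpos P.ρ P.Y x

/-- `x` is an end of an edge. -/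
def GP.Tip (P : GP) (x : ℤ × ℤ) : Prop :=
  P.par x ≠ none ∨ P.aE x ≠ none ∨ ∃ y ∈ P.V, P.par y = some x

/-- `y` is a point of the old closure in the column of `x`, before the next row. -/
structure GP.Anc (P : GP) (n : ℕ) (W : Set ℂ) (F : ℕ → ℂ → ℂ) (κ : ℝ) (x : ℤ × ℤ) (y : ℂ) :
    Prop where
  mem : y ∈ closure W
  re : y.re = (x.1 : ℝ) * P.ρ
  lo : P.Y x.1 (x.2 - 1) ≤ y.im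
  hi : y.im ≤ P.Y x.1 (x.2 + 1)
  free : Disjoint (openSegment ℝ (P.pos x) y) (closure W)
  jets : ∀ j ≤ n, jet (P.T x) j y = F j y
  close : Close n F κ (P.T x) (segment ℝ (P.pos x) y)

structure GP.OK (P : GP) (n : ℕ) (W : Set ℂ) (F : ℕ → ℂ → ℂ) (κ : ℝ) : Prop where
  rho : 0 < P.ρ
  rat : ∃ q : ℚ, P.ρ = q
  mono : ∀ a, StrictMono (P.Y a)
  fin : P.V.Finite
  out : ∀ x ∈ P.V, P.pos x ∉ closure W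
  par : ∀ x ∈ P.V, ∀ y, P.par x = some y → y ∈ P.V ∧ Adj x y ∧ P.rk y < P.rk x ∧ P.aE x = none ∧
    Disjoint (segment ℝ (P.pos x) (P.pos y)) (closure W) ∧
    Close n F κ (P.T x) (segment ℝ (P.pos x) (P.pos y)) ∧
    Close n F κ (P.T y) (segment ℝ (P.pos x) (P.pos y))
  gap : ∀ x ∈ P.V, ∀ y, P.gap x = some y → y ∈ P.V ∧ y.1 = x.1 ∧ (y.2 = x.2 + 1 ∨ x.2 = y.2 + 1) ∧
    P.par x ≠ some y ∧ P.par y ≠ some x ∧ P.gap y ≠ some x ∧ P.T y = P.T x ∧ P.Tip x ∧ P.Tip y ∧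
    Disjoint (segment ℝ (P.pos x) (P.pos y)) (closure W) ∧
    Close n F κ (P.T x) (segment ℝ (P.pos x) (P.pos y))
  aE : ∀ x ∈ P.V, ∀ y, P.aE x = some y → P.Anc n W F κ x y ∧ P.aG x ≠ some y
  aG : ∀ x ∈ P.V, ∀ y, P.aG x = some y → P.Anc n W F κ x y ∧ P.Tip x

/-- What a realised grid plan gives. -/
structure GP.Out (P : GP) (n : ℕ) (Cc κ δ : ℝ) (W' : Set ℂ) (Γ' : Set Seg) : Prop where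
  tip : ∀ x ∈ P.V, P.Tip x → P.pos x ∈ closure W'
  gap : ∀ x ∈ P.V, ∀ y, P.gap x = some y → (⟨P.pos x, P.pos y, P.T x⟩ : Seg) ∈ Γ'
  aG : ∀ x ∈ P.V, ∀ y, P.aG x = some y → (⟨P.pos x, y, P.T x⟩ : Seg) ∈ Γ'
  strong : ∀ G, Sec n W' G → ∀ x ∈ P.V, ∀ y, P.par x = some y → P.T x = P.T y →
    SE n G (P.pos x) (P.pos y)
  weak : ∀ G, Sec n W' G → ∀ x ∈ P.V, ∀ y, P.par x = some y →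
    ‖G 0 (P.pos x) - G 0 (P.pos y)‖ ≤ ‖P.pos x - P.pos y‖ +
      Cc * ‖(P.T x - P.T y).eval ((P.pos x + P.pos y) / 2)‖ / κ + δ
  aE : ∀ G, Sec n W' G → ∀ x ∈ P.V, ∀ y, P.aE x = some y →
    ‖G 0 (P.pos x) - G 0 y‖ ≤ ‖P.pos x - y‖

/-! ### Cells, nodes, vertical objects -/

def cen (ℓ : ℝ) (Q : ℤ × ℤ) : ℂ :=
  ((((Q.1 : ℝ) + 1 / 2) * ℓ : ℝ) : ℂ) + ((((Q.2 : ℝ) + 1 / 2) * ℓ : ℝ) : ℂ) * I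

/-- The cell that contains `z`. -/
def cl (ℓ : ℝ) (z : ℂ) : ℤ × ℤ := (⌊z.re / ℓ⌋, ⌊z.im / ℓ⌋)

def act (W : Set ℂ) (ℓ : ℝ) (Q : ℤ × ℤ) : Prop := Disjoint (ball (cen ℓ Q) (3 * ℓ)) (closure W)

/-- Nodes `(m₁, m₂)` of the index triangle; `m₀ = N - m₁ - m₂`. -/
def Nd (N : ℕ) (m : ℤ × ℤ) : Prop := 0 ≤ m.1 ∧ 0 ≤ m.2 ∧ m.1 + m.2 ≤ N

/-- Oriented neighbours in the triangular lattice. -/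
def Nb (m m' : ℤ × ℤ) : Prop :=
  m' = (m.1 + 1, m.2) ∨ m' = (m.1, m.2 + 1) ∨ m' = (m.1 - 1, m.2 + 1)

/-- Shared positions on a side: not a corner, colour zero. -/
def Sh (N : ℕ) (x : ℤ) : Prop := 0 < x ∧ x < N ∧ x % 3 = 0

/-- A vertical object (thread or probe) on the grid line `k`. -/
structure Obj where
  k : ℤ
  y : ℂ
  s : ℝ
  Λ : ℝ
  St : Finset ℤ
  thr : Prop

def Obj.fin (o : Obj) : ℂ := o.y + ((o.s * o.Λ : ℝ) : ℂ) * I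

structure ObjGeo (W : Set ℂ) (ℓ : ℝ) (O : Set Obj) : Prop where
  fin : O.Finite
  sg : ∀ o ∈ O, o.s = 1 ∨ o.s = -1
  mem : ∀ o ∈ O, o.y ∈ closure W
  re : ∀ o ∈ O, o.y.re = (o.k : ℝ) * ℓ
  len : ∀ o ∈ O, 2 * ℓ < o.Λ
  free : ∀ o ∈ O, Disjoint (openSegment ℝ o.y o.fin) (closure W)
  cross : ∀ o ∈ O, ∀ o' ∈ O, o ≠ o' → Disjoint (openSegment ℝ o.y o.fin) (segment ℝ o'.y o'.fin)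
  thr : ∀ o ∈ O, o.thr → o.fin ∈ closure W
  st : ∀ o ∈ O, ∀ j ∈ o.St, act W ℓ (o.k - 1, j) ∧ act W ℓ (o.k, j) ∧
    ∀ t ∈ Icc ((j : ℝ) * ℓ) (((j : ℝ) + 1) * ℓ), 0 < o.s * (t - o.y.im) ∧ o.s * (t - o.y.im) < o.Λ

/-- No object meets the line `k` in the band `j`. -/
def Free (ℓ : ℝ) (O : Set Obj) (k j : ℤ) : Prop :=
  ∀ o ∈ O, o.k = k → ∀ t ∈ Icc ((j : ℝ) * ℓ) (((j : ℝ) + 1) * ℓ),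
    ¬(0 ≤ o.s * (t - o.y.im) ∧ o.s * (t - o.y.im) ≤ o.Λ)

/-- Geometric condition that makes the line `k` free in the band `j`. -/
def Fr (W : Set ℂ) (Γ : Set Seg) (d ℓ : ℝ) (k j : ℤ) : Prop :=
  k % 3 ≠ 0 ∨ (Disjoint (ball (cen ℓ (k, j)) (2 * d)) (closure W) ∧
    ∀ g ∈ Γ, Disjoint (ball (cen ℓ (k, j)) ℓ) (segment ℝ g.p g.v))

/-- A probe can start at `y` in the direction `s` on the line `k`. -/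
structure Prb (W : Set ℂ) (Γ : Set Seg) (d ℓ : ℝ) (k : ℤ) (y : ℂ) (s : ℝ) : Prop where
  mem : y ∈ closure W
  sg : s = 1 ∨ s = -1
  k3 : k % 3 = 0
  re : y.re = (k : ℝ) * ℓ
  free : ∀ t ∈ Ioc 0 (3 * d), y + ((s * t : ℝ) : ℂ) * I ∉ closure W ∧
    ∀ g ∈ Γ, y + ((s * t : ℝ) : ℂ) * I ∉ segment ℝ g.p g.v
  far : Disjoint (ball (y + ((s * d : ℝ) : ℂ) * I) (10 * ℓ)) (closure W)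

structure ObjGood (W : Set ℂ) (Γ : Set Seg) (d ℓ : ℝ) (O : Set Obj) : Prop where
  k3 : ∀ o ∈ O, o.k % 3 = 0
  th : ∀ g ∈ Γ, ∃ o ∈ O, o.thr ∧ o.y = g.p ∧ o.fin = g.v
  th' : ∀ o ∈ O, o.thr → ∃ g ∈ Γ, o.y = g.p ∧ o.fin = g.v
  card : ∀ o ∈ O, (o.St.card : ℝ) ≤ 3 / d
  prb : ∀ o ∈ O, ¬o.thr → o.Λ ≤ 2 * d ∧ o.St.card ≤ 1
  fr : ∀ k j, Fr W Γ d ℓ k j → Free ℓ O k j
  st : ∀ g ∈ Γ, ∀ z ∈ segment ℝ g.p g.v, Disjoint (ball z (5 * d)) (closure W) →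
    ∃ o ∈ O, ∃ j ∈ o.St, (o.k : ℝ) * ℓ = z.re ∧ |((j : ℝ) + 1 / 2) * ℓ - z.im| ≤ 2 * d
  pr : ∀ k y s, Prb W Γ d ℓ k y s → ∃ o ∈ O, ¬o.thr ∧ o.y = y ∧ o.k = k ∧
    ∃ j ∈ o.St, |((j : ℝ) + 1 / 2) * ℓ - y.im - s * d| ≤ ℓ

/-- Data of the cell gadget. -/
structure GD where
  ℓ : ℝ
  N : ℕ
  xw : ℕ
  c : ℝ
  β : ℝ
  ν' : ℝ
  T : ℤ × ℤ → ℤ × ℤ → ℂ[X]
  Z : ℤ × ℤ → Finset ℂ
  Lk : ℤ × ℤ → ℤ × ℤ → ℤ × ℤ → Finset ℂ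

/-- Shared positions that cross at a station. -/
def GD.Mid (D : GD) (x : ℤ) : Prop := x % 3 = 0 ∧ |2 * x - D.N| ≤ 2 * D.xw

/-- Cost of the stations of an object. -/
def GD.cost (D : GD) (Cc κ : ℝ) (ν : Obj → ℝ) (o : Obj) : ℝ :=
  Cc * o.St.card * (2 * ν o + 2 * D.ν' * D.xw) / κ

structure GHyp (n : ℕ) (W : Set ℂ) (F : ℕ → ℂ → ℂ) (κ : ℝ) (D : GD) (O : Set Obj)
    (To : Obj → ℂ[X]) (ν : Obj → ℝ) : Prop where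
  l0 : 0 < D.ℓ
  l1 : D.ℓ ≤ 1 / 10
  rat : ∃ q : ℚ, D.ℓ = q
  N0 : 0 < D.N
  N6 : 6 ∣ D.N
  xw : 2 * D.xw + 6 ≤ D.N
  c0 : 0 < D.c
  c1 : D.c ≤ 1 / 10
  b0 : 0 ≤ D.β
  n0 : 0 ≤ D.ν'
  box : ∀ Q, act W D.ℓ Q → ∀ ζ ∈ D.Z Q, ‖ζ - cen D.ℓ Q‖ ≤ D.ℓ / 3
  sep : ∀ Q, act W D.ℓ Q → ∀ ζ ∈ D.Z Q, ∀ ζ' ∈ D.Z Q, ζ ≠ ζ' → D.c * D.ℓ ≤ |ζ.re - ζ'.re|
  lk : ∀ Q, act W D.ℓ Q → ∀ m m', Nb m m' → ∀ ζ ∈ D.Lk Q m m',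
    ζ ∈ D.Z Q ∧ ‖(D.T Q m' - D.T Q m).eval ζ‖ ≤ D.β
  close : ∀ Q, act W D.ℓ Q → ∀ m, Nd D.N m → Close n F κ (D.T Q m) (ball (cen D.ℓ Q) (2 * D.ℓ))
  shv : ∀ i j x : ℤ, (i + j) % 2 = 0 → Sh D.N x → D.T (i, j) (x, 0) = D.T (i, j + 1) (x, 0)
  shh : ∀ k j x : ℤ, Sh D.N x → D.T (k - 1, j) (x, D.N - x) = D.T (k, j) (0, x)
  geo : ObjGeo W D.ℓ O
  oj : ∀ o ∈ O, ∀ j ≤ n, jet (To o) j o.y = F j o.y ∧ (o.thr → jet (To o) j o.fin = F j o.fin)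
  oc : ∀ o ∈ O, Close n F κ (To o) (segment ℝ o.y o.fin)
  on : ∀ o ∈ O, 0 ≤ ν o
  os : ∀ o ∈ O, ∀ j ∈ o.St, ∀ x, D.Mid x → ∀ z ∈ ball (cen D.ℓ (o.k, j)) D.ℓ,
    z ∈ segment ℝ o.y o.fin → ‖(To o - D.T (o.k, j) (0, x)).eval z‖ ≤ ν o ∧
      ∀ x', D.Mid x' → ‖(D.T (o.k, j) (0, x') - D.T (o.k, j) (0, x)).eval z‖ ≤
        D.ν' * |((x' - x : ℤ) : ℝ)|

structure GOut (n : ℕ) (Cc κ δ : ℝ) (W : Set ℂ) (D : GD) (O : Set Obj) (ν : Obj → ℝ)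
    (W' : Set ℂ) (Γ' : Set Seg) (rt : ℤ × ℤ → ℤ × ℤ → ℂ) : Prop where
  thr : ∀ o ∈ O, o.thr → ∃ g' ∈ Γ', g'.v = o.fin ∧ ‖g'.p - g'.v‖ ≤ D.ℓ ∧
    ∀ G, Sec n W' G → ‖G 0 o.y - G 0 g'.p‖ ≤ o.Λ + D.cost Cc κ ν o + δ
  root : ∀ Q, act W D.ℓ Q → ∀ m, Nd D.N m → rt Q m ∈ closure W' ∧ ‖rt Q m - cen D.ℓ Q‖ ≤ D.ℓ
  lk : ∀ G, Sec n W' G → GapOK Γ' (G 0) → ∀ Q, act W D.ℓ Q → ∀ m m', Nd D.N m → Nd D.N m' →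
    Nb m m' → ∀ ζ ∈ D.Lk Q m m',
    ‖(tay n G (rt Q m') - tay n G (rt Q m)).eval ζ‖ ≤ Cc / D.c * D.ℓ ^ n + Cc * D.β / κ + δ
  shv : ∀ G, Sec n W' G → ∀ i j x : ℤ, (i + j) % 2 = 0 → act W D.ℓ (i, j) → act W D.ℓ (i, j + 1) →
    Sh D.N x → ∀ z ∈ ball (cen D.ℓ (i, j)) (2 * D.ℓ),
    ‖(tay n G (rt (i, j) (x, 0)) - tay n G (rt (i, j + 1) (x, 0))).eval z‖ ≤ Cc * D.ℓ ^ n
  shh : ∀ G, Sec n W' G → ∀ k j x : ℤ, act W D.ℓ (k - 1, j) → act W D.ℓ (k, j) → Sh D.N x →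
    (Free D.ℓ O k j ∨ ∃ o ∈ O, o.k = k ∧ j ∈ o.St ∧ D.Mid x) →
    ∀ z ∈ ball (cen D.ℓ (k, j)) (2 * D.ℓ),
    ‖(tay n G (rt (k - 1, j) (x, D.N - x)) - tay n G (rt (k, j) (0, x))).eval z‖ ≤ Cc * D.ℓ ^ n
  st : ∀ G, Sec n W' G → ∀ o ∈ O, ∀ j ∈ o.St, ∀ x, D.Mid x →
    ‖G 0 o.y - G 0 (rt (o.k, j) (0, x))‖ ≤ o.Λ + D.cost Cc κ ν o + δ

/-! ### The polynomials of a cell -/

def acol (p : ℤ) : ℂ := if p % 3 = 2 then -1 else if p % 3 = 0 then 1 else (Real.sqrt 3 : ℂ) * I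

/-- The centroid of the model triangle. -/
def actr : ℂ := I / (Real.sqrt 3 : ℂ)

def vtx (ℓ : ℝ) (v : ℤ × ℤ) : ℂ :=
  ((((v.1 : ℝ) + 1 / 2) * ℓ : ℝ) : ℂ) + ((((v.2 : ℝ)) * ℓ : ℝ) : ℂ) * I

def V0 (Q : ℤ × ℤ) : ℤ × ℤ := (Q.1 - 1, if (Q.1 + Q.2) % 2 = 0 then Q.2 + 1 else Q.2)
def V1 (Q : ℤ × ℤ) : ℤ × ℤ := (Q.1 + 1, if (Q.1 + Q.2) % 2 = 0 then Q.2 + 1 else Q.2)
def V2 (Q : ℤ × ℤ) : ℤ × ℤ := (Q.1, if (Q.1 + Q.2) % 2 = 0 then Q.2 else Q.2 + 1)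

def EV (n : ℕ) (F : ℕ → ℂ → ℂ) (τ ℓ : ℝ) (v : ℤ × ℤ) : ℂ[X] :=
  tay (n + 1) F (vtx ℓ v) + C ((τ : ℂ) * acol v.1)

def ebar (N : ℕ) (E0 E1 E2 : ℂ[X]) (m : ℤ × ℤ) : ℂ[X] :=
  C ((N : ℂ)⁻¹) * (C ((N : ℂ) - m.1 - m.2) * E0 + C (m.1 : ℂ) * E1 + C (m.2 : ℂ) * E2)

def upol (r : ℕ) (ω x : ℂ) : ℂ[X] := (C ω * (X - C x)) ^ r

def tnode (N : ℕ) (E0 E1 E2 : ℂ[X]) (ε : ℝ) (u : ℂ[X]) (m : ℤ × ℤ) : ℂ[X] :=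
  ebar N E0 E1 E2 m + C ((ε : ℂ) * (((m.1 - m.2) % 3 : ℤ) : ℂ)) * u

/-- The part of degree at most `r` of the Taylor expansion of `q` at `x`. -/
def trunc (r : ℕ) (x : ℂ) (q : ℂ[X]) : ℂ[X] := tay (r + 1) (jet q) x

structure CD (r N : ℕ) (γ K0 τ ε ℓ : ℝ) (ω x w : ℂ) (i : ℤ) (E0 E1 E2 : ℂ[X]) : Prop where
  l0 : 0 < ℓ
  l1 : ℓ ≤ 1 / 10
  t0 : 0 < τ
  t1 : τ ≤ 1
  e0 : 0 < ε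
  e1 : ε ≤ 1
  om : ‖ω‖ = 1
  N0 : 0 < N
  sig : τ / N = ε * (ℓ / 8) ^ r
  d0 : E0.natDegree ≤ 2 * r
  d1 : E1.natDegree ≤ 2 * r
  d2 : E2.natDegree ≤ 2 * r
  bd : ∀ z ∈ closedBall x 2, ‖E0.eval z‖ ≤ K0 ∧ ‖E1.eval z‖ ≤ K0 ∧ ‖E2.eval z‖ ≤ K0
  near : ∀ z ∈ closedBall x (3 * ℓ), ‖E0.eval z - (w + τ * acol (i - 1))‖ ≤ γ * τ ∧
    ‖E1.eval z - (w + τ * acol (i + 1))‖ ≤ γ * τ ∧ ‖E2.eval z - (w + τ * acol i)‖ ≤ γ * τ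

/-- `r` well separated points near `x`. -/
structure Pts (r : ℕ) (c ℓ : ℝ) (x : ℂ) (Z : Finset ℂ) : Prop where
  card : Z.card = r
  box : ∀ ζ ∈ Z, ‖ζ - x‖ ≤ ℓ / 3
  sep : ∀ ζ ∈ Z, ∀ ζ' ∈ Z, ζ ≠ ζ' → c * ℓ ≤ ‖ζ - ζ'‖

def LkOK (r : ℕ) (c ℓ : ℝ) (x : ℂ) (T : ℤ × ℤ → ℂ[X]) (Lk : ℤ × ℤ → ℤ × ℤ → Finset ℂ) : Prop :=
  ∀ m m', Nb m m' → Pts r c ℓ x (Lk m m') ∧ ∀ ζ ∈ Lk m m', (trunc r x (T m' - T m)).eval ζ = 0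

/-- The twelve values `-a/β`. -/
def Vals : Set ℂ := {v | ∃ p q : ℤ, p % 3 ≠ q % 3 ∧ (v = acol p - acol q ∨ v = (acol p - acol q) / 2)}

/-- Lattice distance plus one. -/
def dd (m m' : ℤ × ℤ) : ℝ := |((m.1 - m'.1 : ℤ) : ℝ)| + |((m.2 - m'.2 : ℤ) : ℝ)| + 1

/-- The discrete Whitney field on the nodes. -/
structure NF (N : ℕ) (K σ ℓ : ℝ) (x : ℂ) (E0 E1 E2 : ℂ[X]) (S : ℤ × ℤ → ℂ[X])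
    (g ν : ℤ × ℤ → ℂ → ℂ) : Prop where
  val : ∀ z ∈ closedBall x (3 * ℓ), ∀ m, Nd N m → ‖g m z - (S m).eval z‖ ≤ K * σ
  bd : ∀ z ∈ closedBall x (3 * ℓ), ∀ m, Nd N m → ‖ν m z‖ ≤ K
  mv : ∀ z ∈ closedBall x (3 * ℓ), ∀ m, Nd N m → ‖ν m z - ν m x‖ ≤ K * ℓ
  lip : ∀ z ∈ closedBall x (3 * ℓ), ∀ m m', Nd N m → Nd N m' →
    ‖ν m' z - ν m z‖ ≤ K * (σ * dd m m')
  tay : ∀ z ∈ closedBall x (3 * ℓ), ∀ m m', Nd N m → Nd N m' →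
    ‖g m' z - g m z - ν m z * ((ebar N E0 E1 E2 m').eval z - (ebar N E0 E1 E2 m).eval z)‖ ≤
      K * (σ * dd m m') ^ 2

/-- A Whitney field with complex derivative, down to the scale `s`. -/
structure Wh (K s : ℝ) (g μ : ℂ → ℂ) (A : Set ℂ) : Prop where
  bg : ∀ x ∈ A, ‖g x‖ ≤ K
  bm : ∀ x ∈ A, ‖μ x‖ ≤ K
  lip : ∀ x ∈ A, ∀ y ∈ A, ‖μ y - μ x‖ ≤ K * (‖y - x‖ + s)
  tay : ∀ x ∈ A, ∀ y ∈ A, ‖g y - g x - μ x * (y - x)‖ ≤ K * (‖y - x‖ + s) ^ 2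

def hull (a b c : ℂ) : Set ℂ := convexHull ℝ {a, b, c}

/-- The fields of one cell. -/
structure CF (N : ℕ) (K τ ℓ : ℝ) (x w : ℂ) (E0 E1 E2 : ℂ[X]) (S : ℤ × ℤ → ℂ[X])
    (g μ : ℂ → ℂ → ℂ) (cc : ℂ → ℂ) : Prop where
  wh : ∀ z ∈ closedBall x (2 * ℓ),
    Wh K (τ / N) (g z) (μ z) (hull (E0.eval z) (E1.eval z) (E2.eval z))
  nd : ∀ z ∈ closedBall x (2 * ℓ), ∀ m, Nd N m → ∀ u ∈ hull (E0.eval z) (E1.eval z) (E2.eval z),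
    ‖g z u - (S m).eval z‖ ≤ K * (‖u - (ebar N E0 E1 E2 m).eval z‖ + τ / N)
  ex : ∀ z ∈ closedBall x (2 * ℓ), ∀ u ∈ hull (E0.eval z) (E1.eval z) (E2.eval z),
    ∃ m, Nd N m ∧ ‖g z u - (S m).eval z‖ ≤ K * (τ / N)
  cr : ∀ z ∈ closedBall x (2 * ℓ), ∀ u ∈ ball (w + τ * actr) (τ / 20),
    ‖g z u - g x u - cc u * (z - x)‖ ≤ K * ℓ ^ 2
  cb : ∀ u ∈ ball (w + τ * actr) (τ / 20), ‖cc u‖ ≤ K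

/-- Three points near the model triangle, in the order of the colours `A, A+1, A+2`. -/
structure Tri (τ : ℝ) (w : ℂ) (A : ℤ) (a b c : ℂ) : Prop where
  t0 : 0 < τ
  t1 : τ ≤ 1
  ha : ‖a - (w + τ * acol A)‖ ≤ τ / 1000
  hb : ‖b - (w + τ * acol (A + 1))‖ ≤ τ / 1000
  hc : ‖c - (w + τ * acol (A + 2))‖ ≤ τ / 1000

structure Prep (r : ℕ) (Cg c : ℝ) (ω : ℂ) (W : Set ℂ) (F : ℕ → ℂ → ℂ) (Γ : Set Seg)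
    (κ τ ε0 K0 : ℝ) (βc : ℝ → ℝ) (d a : ℝ) (D : GD) (O : Set Obj) (To : Obj → ℂ[X])
    (ν : Obj → ℝ) (ε : ℝ) : Prop where
  hyp : GHyp (2 * r) W F κ D O To ν
  good : ObjGood W Γ d D.ℓ O
  cc : D.c = c
  ld : D.ℓ ≤ d ^ 2
  beta : D.β ≤ κ * D.ℓ ^ (2 * r)
  eps : ε0 ≤ ε
  cd : ∀ Q, act W D.ℓ Q → CD r D.N (1 / 3000) K0 τ ε D.ℓ ω (cen D.ℓ Q) (F 0 (cen D.ℓ Q)) Q.1
    (EV (2 * r) F τ D.ℓ (V0 Q)) (EV (2 * r) F τ D.ℓ (V1 Q)) (EV (2 * r) F τ D.ℓ (V2 Q))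
  tq : ∀ Q m, D.T Q m = tnode D.N (EV (2 * r) F τ D.ℓ (V0 Q)) (EV (2 * r) F τ D.ℓ (V1 Q))
    (EV (2 * r) F τ D.ℓ (V2 Q)) ε (upol r ω (cen D.ℓ Q)) m
  lk : ∀ Q, act W D.ℓ Q → LkOK r c D.ℓ (cen D.ℓ Q) (D.T Q) (D.Lk Q)
  xw : a * D.N + 3 ≤ D.xw
  thr : ∀ o ∈ O, o.thr → D.cost Cg κ ν o + D.ℓ ^ (2 * r) ≤ 2 * o.Λ ∧ 4 * D.ℓ ≤ o.Λ
  prb : ∀ o ∈ O, ¬o.thr → ∀ η : ℝ, 0 < η → d ≤ βc η → D.cost Cg κ ν o ≤ η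

/-! ### The interface to the limit -/

def tube (F0 : ℂ → ℂ) (τ ℓ : ℝ) (Q : ℤ × ℤ) : Set ℂ := ball (F0 (cen ℓ Q) + τ * actr) (τ / 50)

def Lnk (F0 : ℂ → ℂ) (τ K ℓ : ℝ) (Φ c : ℤ × ℤ → ℂ → ℂ) (Q Q' : ℤ × ℤ) : Prop :=
  ∀ w ∈ tube F0 τ ℓ Q, w ∈ tube F0 τ ℓ Q' →
    ‖Φ Q' w - Φ Q w - c Q w * (cen ℓ Q' - cen ℓ Q)‖ ≤ K * ℓ ^ 2

structure Cells (W : Set ℂ) (Γ : Set Seg) (F0 : ℂ → ℂ) (τ K : ℝ) (βf : ℝ → ℝ) (e : ℂ) (d : ℝ)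
    (g0 : ℂ → ℂ) (ℓ : ℝ) (Φ μ c : ℤ × ℤ → ℂ → ℂ) : Prop where
  d0 : 0 < d
  d1 : d ≤ 1 / 10
  l0 : 0 < ℓ
  ld : ℓ ≤ d ^ 2
  wh : ∀ Q, act W ℓ Q → Wh K d (Φ Q) (μ Q) (tube F0 τ ℓ Q)
  cb : ∀ Q, act W ℓ Q → ∀ w ∈ tube F0 τ ℓ Q, ‖c Q w‖ ≤ K
  ver : ∀ i j : ℤ, (i + j) % 2 = 0 → act W ℓ (i, j) → act W ℓ (i, j + 1) →
    Lnk F0 τ K ℓ Φ c (i, j) (i, j + 1) ∧ Lnk F0 τ K ℓ Φ c (i, j + 1) (i, j)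
  hor : ∀ k j : ℤ, act W ℓ (k - 1, j) → act W ℓ (k, j) → Fr W Γ d ℓ k j →
    Lnk F0 τ K ℓ Φ c (k - 1, j) (k, j) ∧ Lnk F0 τ K ℓ Φ c (k, j) (k - 1, j)
  sta : ∀ g ∈ Γ, ∀ z ∈ segment ℝ g.p g.v, Disjoint (ball z (5 * d)) (closure W) →
    ∃ k j : ℤ, k % 3 = 0 ∧ (k : ℝ) * ℓ = z.re ∧ |((j : ℝ) + 1 / 2) * ℓ - z.im| ≤ 2 * d ∧
      ∀ w ∈ tube F0 τ ℓ (k - 1, j), w ∈ tube F0 τ ℓ (k, j) → ‖Φ (k - 1, j) w - Φ (k, j) w‖ ≤ d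
  pro : ∀ k y s, Prb W Γ d ℓ k y s → ∃ j : ℤ, |((j : ℝ) + 1 / 2) * ℓ - y.im - s * d| ≤ ℓ ∧
    ∀ η : ℝ, 0 < η → d ≤ βf η → ∀ c0 : ℂ,
      (∀ w ∈ ball (F0 (cen ℓ (k, j)) + τ * actr) (τ / 200), ‖Φ (k, j) w - c0‖ ≤ βf η) →
      ‖g0 y - c0‖ ≤ η
  flat : ∀ Q, act W ℓ Q → ball (cen ℓ Q) (3 * ℓ) ⊆ ball e (1 / 10) →
    ∀ w ∈ tube F0 τ ℓ Q, ∀ w' ∈ tube F0 τ ℓ Q, ‖Φ Q w - Φ Q w'‖ ≤ K * d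

/-- A sequence of finite levels with `d → 0`. -/
structure Sq {n : ℕ} (s : Core n) (Γ : Set Seg) (τ K : ℝ) (βf : ℝ → ℝ) (e : ℂ)
    (d ℓ : ℕ → ℝ) (G : ℕ → ℕ → ℂ → ℂ) (Φ μ c : ℕ → ℤ × ℤ → ℂ → ℂ) : Prop where
  gaps : Gaps n s.W s.F Γ
  t0 : 0 < τ
  K1 : 1 ≤ K
  bf : ∀ η : ℝ, 0 < η → 0 < βf η
  lim : Tendsto d atTop (𝓝 0)
  sec : ∀ J, Sec 1 s.W (G J)
  cells : ∀ J, Cells s.W Γ (s.F 0) τ K βf e (d J) (G J 0) (ℓ J) (Φ J) (μ J) (c J)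

/-- The ultrafilter along which all limits are taken. -/
def UF : Filter ℕ := (hyperfilter ℕ : Filter ℕ)

def phi (ℓ : ℕ → ℝ) (Φ : ℕ → ℤ × ℤ → ℂ → ℂ) (z w : ℂ) : ℂ :=
  limUnder UF fun J => Φ J (cl (ℓ J) z) w

def gl (G : ℕ → ℕ → ℂ → ℂ) (z : ℂ) : ℂ := limUnder UF fun J => G J 0 z

end

end Pool.Agent.MP_d32a63_an.H58
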