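import Pool.Agent.MP_d32a63_an.H58.Spec

/-! A Lipschitz profile through finitely many points with separated abscissas. -/

open Set Metric

namespace Pool.Agent.MP_d32a63_an.H58

theorem exists_profile (A : Set ℂ) (L y0 b : ℝ) (hL : 0 ≤ L) (hb : 0 ≤ b)
    (h1 : ∀ z ∈ A, ∀ z' ∈ A, |z.im - z'.im| ≤ L * |z.re - z'.re|)
    (h2 : ∀ z ∈ A, |z.im - y0| ≤ b) :
    ∃ h : ℝ → ℝ, (∀ x x', |h x - h x'| ≤ L * |x - x'|) ∧ (∀ x, |h x - y0| ≤ b) ∧
      ∀ z ∈ A, z.im = h z.re := by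
  classical
  let f : ℝ → ℝ := fun x => if hx : ∃ z ∈ A, z.re = x then hx.choose.im else 0
  have hf : ∀ z ∈ A, f z.re = z.im := by
    intro z hz
    have hx : ∃ z' ∈ A, z'.re = z.re := ⟨z, hz, rfl⟩
    have hs := hx.choose_spec
    have := h1 _ hs.1 z hz
    rw [hs.2, sub_self, abs_zero, mul_zero] at this
    have h0 : hx.choose.im - z.im = 0 := abs_eq_zero.1 (le_antisymm this (abs_nonneg _))
    simp only [f, dif_pos hx]
    linarith
  have hl : LipschitzOnWith ⟨L, hL⟩ f (Complex.re '' A) := by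
    refine LipschitzOnWith.of_dist_le_mul ?_
    rintro _ ⟨z, hz, rfl⟩ _ ⟨z', hz', rfl⟩
    rw [hf z hz, hf z' hz', Real.dist_eq, Real.dist_eq]
    exact h1 z hz z' hz'
  obtain ⟨g, hg, he⟩ := hl.extend_real
  refine ⟨fun x => max (y0 - b) (min (g x) (y0 + b)), fun x x' => ?_, fun x => ?_, fun z hz => ?_⟩
  · have h3 := hg.dist_le_mul x x'
    rw [Real.dist_eq, Real.dist_eq] at h3
    refine le_trans ?_ h3
    refine (abs_max_sub_max_le_max _ _ _ _).trans ?_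
    rw [sub_self, abs_zero]
    refine max_le (abs_nonneg _) ?_
    refine (abs_min_sub_min_le_max _ _ _ _).trans ?_
    rw [sub_self, abs_zero]
    exact max_le le_rfl (abs_nonneg _)
  · rw [abs_le]
    constructor
    · have := le_max_left (y0 - b) (min (g x) (y0 + b)); linarith
    · have : max (y0 - b) (min (g x) (y0 + b)) ≤ y0 + b :=
        max_le (by linarith) (min_le_right _ _)
      linarith
  · have h3 : g z.re = z.im := by rw [← he ⟨z, hz, rfl⟩, hf z hz]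
    have h4 := abs_le.1 (h2 z hz)
    simp only [h3]
    rw [min_eq_left (by linarith), max_eq_right (by linarith)]

theorem cen_re (ℓ : ℝ) (Q : ℤ × ℤ) : (cen ℓ Q).re = ((Q.1 : ℝ) + 1 / 2) * ℓ := by simp [cen]

theorem cen_im (ℓ : ℝ) (Q : ℤ × ℤ) : (cen ℓ Q).im = ((Q.2 : ℝ) + 1 / 2) * ℓ := by simp [cen]

theorem fin_re (o : Obj) : o.fin.re = o.y.re := by simp [Obj.fin]

theorem fin_im (o : Obj) : o.fin.im = o.y.im + o.s * o.Λ := by simp [Obj.fin]

/-- The profiles of the rows. -/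
theorem exists_rows {n W F κ D O To ν} (H : GHyp n W F κ D O To ν) :
    ∃ h : ℤ → ℝ → ℝ, (∀ j x x', |h j x - h j x'| ≤ 1 / D.c * |x - x'|) ∧
      (∀ (j : ℤ) x, |h j x - (j + 1 / 2) * D.ℓ| ≤ D.ℓ / 3) ∧
      ∀ Q, act W D.ℓ Q → ∀ ζ ∈ D.Z Q, ζ.im = h Q.2 ζ.re := by
  have hl := H.l0
  have hc := H.c0
  have hc1 := H.c1
  have him : ∀ Q, act W D.ℓ Q → ∀ ζ ∈ D.Z Q, |ζ.im - ((Q.2 : ℝ) + 1 / 2) * D.ℓ| ≤ D.ℓ / 3 := by
    intro Q hQ ζ hζ
    have := (Complex.abs_im_le_norm _).trans (H.box Q hQ ζ hζ)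
    rwa [Complex.sub_im, cen_im] at this
  have hre : ∀ Q, act W D.ℓ Q → ∀ ζ ∈ D.Z Q, |ζ.re - ((Q.1 : ℝ) + 1 / 2) * D.ℓ| ≤ D.ℓ / 3 := by
    intro Q hQ ζ hζ
    have := (Complex.abs_re_le_norm _).trans (H.box Q hQ ζ hζ)
    rwa [Complex.sub_re, cen_re] at this
  have key : ∀ j : ℤ, ∃ h : ℝ → ℝ, (∀ x x', |h x - h x'| ≤ 1 / D.c * |x - x'|) ∧
      (∀ x, |h x - (j + 1 / 2) * D.ℓ| ≤ D.ℓ / 3) ∧
      ∀ z ∈ {z | ∃ i : ℤ, act W D.ℓ (i, j) ∧ z ∈ D.Z (i, j)}, z.im = h z.re := by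
    intro j
    refine exists_profile _ _ _ _ (by positivity) (by positivity) ?_ ?_
    · rintro z ⟨i, hi, hz⟩ z' ⟨i', hi', hz'⟩
      by_cases hzz : z = z'
      · rw [hzz]; simp
      have h1 := abs_le.1 (him _ hi z hz)
      have h2 := abs_le.1 (him _ hi' z' hz')
      have h3 : |z.im - z'.im| ≤ D.ℓ := by
        rw [abs_le]; simp only at h1 h2; constructor <;> linarith
      have h4 : D.c * D.ℓ ≤ |z.re - z'.re| := by
        by_cases hii : i = i'
        · subst hii; exact H.sep _ hi z hz z' hz' hzz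
        · have h5 := abs_le.1 (hre _ hi z hz)
          have h6 := abs_le.1 (hre _ hi' z' hz')
          simp only at h5 h6
          have h7 : D.c * D.ℓ ≤ D.ℓ / 3 := by nlinarith
          rcases lt_or_gt_of_ne hii with h | h
          · have : (i : ℝ) + 1 ≤ i' := by exact_mod_cast h
            have : ((i : ℝ) + 1) * D.ℓ ≤ i' * D.ℓ := by gcongr
            rw [le_abs]; right; linarith
          · have : (i' : ℝ) + 1 ≤ i := by exact_mod_cast h
            have : ((i' : ℝ) + 1) * D.ℓ ≤ i * D.ℓ := by gcongr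
            rw [le_abs]; left; linarith
      calc |z.im - z'.im| ≤ D.ℓ := h3
        _ = 1 / D.c * (D.c * D.ℓ) := by field_simp
        _ ≤ 1 / D.c * |z.re - z'.re| := by gcongr
    · rintro z ⟨i, hi, hz⟩
      exact him _ hi z hz
  choose h h1 h2 h3 using key
  exact ⟨h, h1, h2, fun Q hQ ζ hζ => h3 Q.2 ζ ⟨Q.1, hQ, hζ⟩⟩

end Pool.Agent.MP_d32a63_an.H58
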